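import Mathlib
import Pool.Agent.Helper766.RealAxis

set_option autoImplicit false

open Polynomial Finset

namespace Pool.Agent.Helper809.Koe

open Pool.Agent.Helper766

/-- discrete version of `(1/π) ∫ f(x) √(1-x²) dx` on the nodes `cos(2πk/M)` -/
noncomputable def Lq (M : ℕ) (f : ℝ[X]) : ℝ :=
  (1 / M) * ∑ k ∈ range M, f.eval (nd M k) * (1 - nd M k ^ 2)

lemma Lq_add (M : ℕ) (f g : ℝ[X]) : Lq M (f + g) = Lq M f + Lq M g := by
  unfold Lq
  simp only [eval_add, add_mul, sum_add_distrib]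
  ring

lemma Lq_sub (M : ℕ) (f g : ℝ[X]) : Lq M (f - g) = Lq M f - Lq M g := by
  unfold Lq
  simp only [eval_sub, sub_mul, sum_sub_distrib]
  ring

lemma Lq_C_mul (M : ℕ) (c : ℝ) (f : ℝ[X]) : Lq M (C c * f) = c * Lq M f := by
  unfold Lq
  simp only [eval_mul, eval_C, mul_assoc, ← mul_sum]
  ring

lemma Lq_sum {ι : Type*} (M : ℕ) (s : Finset ι) (f : ι → ℝ[X]) :
    Lq M (∑ i ∈ s, f i) = ∑ i ∈ s, Lq M (f i) := by
  classical
  induction s using Finset.induction_on with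
  | empty => simp [Lq]
  | insert a s ha ih => rw [sum_insert ha, sum_insert ha, Lq_add, ih]

lemma nd_mem (M k : ℕ) : nd M k ∈ Set.Icc (-1 : ℝ) 1 :=
  ⟨Real.neg_one_le_cos _, Real.cos_le_one _⟩

lemma one_sub_nd_sq (M k : ℕ) : 0 ≤ 1 - nd M k ^ 2 := by
  have h := nd_mem M k
  nlinarith [h.1, h.2]

lemma Lq_sq_nonneg (M : ℕ) (f : ℝ[X]) : 0 ≤ Lq M (f ^ 2) := by
  unfold Lq
  apply mul_nonneg (by positivity)
  apply sum_nonneg
  intro k _
  rw [eval_pow]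
  exact mul_nonneg (sq_nonneg _) (one_sub_nd_sq M k)

lemma Lq_U {M : ℕ} (j : ℕ) (hj : j + 2 < M) :
    Lq M (Chebyshev.U ℝ (j : ℤ)) = if j = 0 then 1 / 2 else 0 := by
  have hM : (M : ℝ) ≠ 0 := by
    have : M ≠ 0 := by omega
    exact_mod_cast this
  unfold Lq
  rw [sum_U_sq_nodes j hj]
  split_ifs
  · field_simp
  · simp

/-- `L(X^k U_m) = 0` for `k < m` -/
lemma Lq_X_pow_mul_U {M : ℕ} (k : ℕ) : ∀ m : ℕ, k < m → m + k + 2 < M →
    Lq M (X ^ k * Chebyshev.U ℝ (m : ℤ)) = 0 := by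
  induction k with
  | zero =>
    intro m hm hM
    rw [pow_zero, one_mul, Lq_U m (by omega), if_neg (by omega)]
  | succ k ih =>
    intro m hm hM
    obtain ⟨n, rfl⟩ : ∃ n, m = n + 1 := ⟨m - 1, by omega⟩
    have h1 := ih (n + 1 + 1) (by omega) (by omega)
    have h2 := ih n (by omega) (by omega)
    have e : X ^ (k + 1) * Chebyshev.U ℝ ((n + 1 : ℕ) : ℤ) =
        C (1 / 2) * (X ^ k * Chebyshev.U ℝ ((n + 1 + 1 : ℕ) : ℤ)) +
        C (1 / 2) * (X ^ k * Chebyshev.U ℝ (n : ℤ)) := by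
      have h3 := Chebyshev.U_add_two ℝ (n : ℤ)
      have e1 : ((n + 1 + 1 : ℕ) : ℤ) = (n : ℤ) + 2 := by push_cast; ring
      have e2 : ((n + 1 : ℕ) : ℤ) = (n : ℤ) + 1 := by push_cast; ring
      rw [e1, e2, h3]
      have e3 : (C (1 / 2) : ℝ[X]) * 2 = 1 := by
        have : (2 : ℝ[X]) = C 2 := rfl
        rw [this, ← C_mul]
        norm_num
      linear_combination (-(X ^ (k + 1) * Chebyshev.U ℝ ((n : ℤ) + 1))) * e3
    rw [e, Lq_add, Lq_C_mul, Lq_C_mul, h1, h2]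
    ring

lemma Lq_mul_U {M m d : ℕ} (g : ℝ[X]) (hg : g.natDegree ≤ d) (hd : d < m) (hM : m + d + 2 < M) :
    Lq M (Chebyshev.U ℝ (m : ℤ) * g) = 0 := by
  rw [g.as_sum_range_C_mul_X_pow' (n := d + 1) (by omega), mul_sum, Lq_sum]
  apply sum_eq_zero
  intro i hi
  rw [mem_range] at hi
  have e : Chebyshev.U ℝ (m : ℤ) * (C (g.coeff i) * X ^ i) =
      C (g.coeff i) * (X ^ i * Chebyshev.U ℝ (m : ℤ)) := by ring
  rw [e, Lq_C_mul, Lq_X_pow_mul_U i m (by omega) (by omega), mul_zero]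

/-- difference quotient of `U_j` in the second variable `y`. -/
noncomputable def Eq (y : ℝ) : ℕ → ℝ[X]
  | 0 => 0
  | 1 => C 2
  | (j + 2) => 2 * Chebyshev.U ℝ ((j + 1 : ℕ) : ℤ) + C (2 * y) * Eq y (j + 1) - Eq y j

lemma Eq_spec (y : ℝ) (j : ℕ) : (X - C y) * Eq y j =
    Chebyshev.U ℝ (j : ℤ) - C ((Chebyshev.U ℝ (j : ℤ)).eval y) := by
  induction j using Nat.twoStepInduction with
  | zero => simp [Eq]
  | one =>
    simp only [Eq, Nat.cast_one, Chebyshev.U_one, eval_mul, eval_ofNat, eval_X, C_mul]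
    have : (C 2 : ℝ[X]) = 2 := rfl
    rw [this]
    ring
  | more j h1 h2 =>
    rw [Eq]
    have h3 := Chebyshev.U_add_two ℝ (j : ℤ)
    have e1 : ((j + 2 : ℕ) : ℤ) = (j : ℤ) + 2 := by push_cast; ring
    have e2 : ((j + 1 : ℕ) : ℤ) = (j : ℤ) + 1 := by push_cast; ring
    rw [e1, h3]
    rw [e2] at h2 ⊢
    simp only [eval_sub, eval_mul, eval_ofNat, eval_X, C_sub, C_mul]
    have : (C 2 : ℝ[X]) = 2 := rfl
    rw [this]
    linear_combination 2 * C y * h2 - h1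

lemma Lq_Eq {M : ℕ} (y : ℝ) (j : ℕ) (hj : j + 2 < M) : Lq M (Eq y j) =
    y * (Chebyshev.U ℝ (j : ℤ)).eval y - (Chebyshev.T ℝ ((j + 1 : ℕ) : ℤ)).eval y := by
  induction j using Nat.twoStepInduction with
  | zero => simp [Eq, Lq]
  | one =>
    have h := Lq_U (M := M) 0 (by omega)
    rw [if_pos rfl] at h
    have e : Eq y 1 = C 2 * Chebyshev.U ℝ ((0 : ℕ) : ℤ) := by simp [Eq]
    rw [e, Lq_C_mul, h]
    have e2 : ((1 + 1 : ℕ) : ℤ) = 2 := by norm_num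
    rw [e2, Chebyshev.T_two]
    simp
    ring
  | more j h1 h2 =>
    have h1 := h1 (by omega)
    have h2 := h2 (by omega)
    rw [Eq, Lq_sub, Lq_add, Lq_C_mul, h1, h2]
    have e0 : (2 : ℝ[X]) * Chebyshev.U ℝ ((j + 1 : ℕ) : ℤ) = C 2 * Chebyshev.U ℝ ((j + 1 : ℕ) : ℤ) := rfl
    rw [e0, Lq_C_mul, Lq_U (j + 1) (by omega), if_neg (by omega)]
    have h3 := Chebyshev.U_add_two ℝ (j : ℤ)
    have h4 := Chebyshev.T_add_two ℝ ((j : ℤ) + 1)
    have e1 : ((j + 2 : ℕ) : ℤ) = (j : ℤ) + 2 := by push_cast; ring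
    have e2 : ((j + 1 : ℕ) : ℤ) = (j : ℤ) + 1 := by push_cast; ring
    have e3 : ((j + 2 + 1 : ℕ) : ℤ) = (j : ℤ) + 1 + 2 := by push_cast; ring
    have e5 : (j : ℤ) + 1 + 1 = (j : ℤ) + 2 := by ring
    rw [e5] at h4
    rw [e1, e3, h3, h4, e2]
    simp only [eval_sub, eval_mul, eval_ofNat, eval_X]
    ring

lemma Eq_natDegree (y : ℝ) (j : ℕ) : (Eq y j).natDegree ≤ j - 1 := by
  induction j using Nat.twoStepInduction with
  | zero => simp [Eq]
  | one => simp [Eq]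
  | more j h1 h2 =>
    rw [Eq]
    refine (natDegree_sub_le _ _).trans (max_le ((natDegree_add_le _ _).trans (max_le ?_ ?_)) ?_)
    · refine (natDegree_mul_le).trans ?_
      rw [Chebyshev.natDegree_U_natCast]
      have : (2 : ℝ[X]).natDegree = 0 := natDegree_ofNat 2
      rw [this]; omega
    · refine (natDegree_C_mul_le _ _).trans (h2.trans (by omega))
    · exact h1.trans (by omega)

end Pool.Agent.Helper809.Koe
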