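import Mathlib
import Pool.Agent.Helper809.Koe.Quad

set_option autoImplicit false

open Polynomial Finset

namespace Pool.Agent.Helper809.Koe

open Pool.Agent.Helper766

/-- quadrature at the nodes `S` -/
lemma quad_nodes {M D : ℕ} {S : Finset ℝ}
    (horth : ∀ g : ℝ[X], g.natDegree + S.card ≤ D → Lq M (Lagrange.nodal S id * g) = 0)
    (f : ℝ[X]) (hf : f.natDegree ≤ D) :
    Lq M f = ∑ x ∈ S, f.eval x * Lq M (Lagrange.basis S id x) := by
  classical
  set ω : ℝ[X] := Lagrange.nodal S id with hω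
  have hmon : ω.Monic := Lagrange.nodal_monic
  have hnd : ω.natDegree = S.card := Lagrange.natDegree_nodal
  have hdiv := modByMonic_add_div f ω
  have h2 : Lq M (ω * (f /ₘ ω)) = 0 := by
    rcases lt_or_ge f.natDegree S.card with h | h
    · have : f /ₘ ω = 0 := by
        rw [divByMonic_eq_zero_iff hmon]
        apply degree_lt_degree
        rw [hnd]; exact h
      rw [this, mul_zero]
      simp [Lq]
    · apply horth
      rw [natDegree_divByMonic f hmon, hnd]
      omega
  have h3 : f %ₘ ω = Lagrange.interpolate S id (fun x => f.eval x) := by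
    apply Lagrange.eq_interpolate_of_eval_eq _ Function.injective_id.injOn
    · have := degree_modByMonic_lt f hmon
      rwa [degree_eq_natDegree hmon.ne_zero, hnd] at this
    · intro x hx
      have h4 := congrArg (fun p => p.eval x) hdiv
      simp only [eval_add, eval_mul] at h4
      have h5 : ω.eval x = 0 := Lagrange.eval_nodal_at_node (v := id) hx
      rw [h5, zero_mul, add_zero] at h4
      exact h4
  rw [← hdiv, Lq_add, h2, add_zero, h3, Lagrange.interpolate_apply, Lq_sum]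
  apply sum_congr rfl
  intro x hx
  rw [Lq_C_mul, ← Lagrange.interpolate_apply, ← h3, hdiv]

lemma weight_nonneg {M D : ℕ} {S : Finset ℝ}
    (horth : ∀ g : ℝ[X], g.natDegree + S.card ≤ D → Lq M (Lagrange.nodal S id * g) = 0)
    (hD : 2 * S.card ≤ D + 2) {x : ℝ} (hx : x ∈ S) : 0 ≤ Lq M (Lagrange.basis S id x) := by
  classical
  have hnd : (Lagrange.basis S id x).natDegree = S.card - 1 :=
    Lagrange.natDegree_basis Function.injective_id.injOn hx
  have h := quad_nodes horth ((Lagrange.basis S id x) ^ 2) (by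
    rw [natDegree_pow, hnd]
    omega)
  rw [sum_eq_single x] at h
  · rw [eval_pow] at h
    have h1 : (Lagrange.basis S id x).eval x = 1 :=
      Lagrange.eval_basis_self (v := id) Function.injective_id.injOn hx
    rw [h1, one_pow, one_mul] at h
    rw [← h]
    exact Lq_sq_nonneg _ _
  · intro z hz hzx
    have h1 : (Lagrange.basis S id x).eval z = 0 :=
      Lagrange.eval_basis_of_ne (v := id) hzx.symm hz
    rw [eval_pow, h1]
    ring
  · intro h1
    exact absurd hx h1

/-- real part of `P(e^{is})` through the functional `L` -/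
lemma re_eq (p : ℝ[X]) {N M : ℕ} (hdeg : p.natDegree ≤ N) (h0 : p.coeff 0 = 0) (hM : N + 2 < M)
    (s : ℝ) :
    (aeval (Complex.exp (s * Complex.I)) p).re =
      Real.cos s * (qpoly p N).eval (Real.cos s) -
        Lq M (∑ j ∈ range N, C (p.coeff (j + 1)) * Eq (Real.cos s) j) := by
  rw [Lq_sum]
  conv_lhs => rw [poly_sum p hdeg h0]
  unfold qpoly
  rw [eval_finsetSum, map_sum, Complex.re_sum, mul_sum, ← sum_sub_distrib]
  apply sum_congr rfl
  intro j hj
  rw [mem_range] at hj
  rw [Lq_C_mul, Lq_Eq _ j (by omega), map_mul, aeval_C, map_pow, aeval_X]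
  have : (algebraMap ℝ ℂ) (p.coeff (j + 1)) = ((p.coeff (j + 1) : ℝ) : ℂ) := rfl
  rw [this, Complex.re_ofReal_mul, eval_C_mul, ← Complex.exp_nat_mul]
  have e : ((j + 1 : ℕ) : ℂ) * (s * Complex.I) = (((j + 1 : ℕ) * s : ℝ) : ℂ) * Complex.I := by
    push_cast; ring
  rw [e, Complex.exp_ofReal_mul_I_re, Chebyshev.T_real_cos]
  push_cast
  ring

lemma Dq_spec (p : ℝ[X]) (N : ℕ) (y : ℝ) :
    (X - C y) * (∑ j ∈ range N, C (p.coeff (j + 1)) * Eq y j) =
      qpoly p N - C ((qpoly p N).eval y) := by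
  unfold qpoly
  rw [mul_sum, eval_finsetSum, map_sum, ← sum_sub_distrib]
  apply sum_congr rfl
  intro j _
  rw [eval_C_mul, C_mul]
  linear_combination C (p.coeff (j + 1)) * Eq_spec y j

lemma Dq_natDegree (p : ℝ[X]) (N : ℕ) (y : ℝ) :
    (∑ j ∈ range N, C (p.coeff (j + 1)) * Eq y j).natDegree ≤ N - 2 := by
  apply natDegree_sum_le_of_forall_le
  intro j hj
  rw [mem_range] at hj
  exact (natDegree_C_mul_le _ _).trans ((Eq_natDegree y j).trans (by omega))

lemma qpoly_natDegree (p : ℝ[X]) (N : ℕ) : (qpoly p N).natDegree ≤ N - 1 := by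
  unfold qpoly
  apply natDegree_sum_le_of_forall_le
  intro j hj
  rw [mem_range] at hj
  refine (natDegree_C_mul_le _ _).trans ?_
  rw [Chebyshev.natDegree_U_natCast]
  omega

lemma Lq_qpoly (p : ℝ[X]) {N M : ℕ} (hN : 1 ≤ N) (hM : N + 2 < M) (h1 : p.coeff 1 = 1) :
    Lq M (qpoly p N) = 1 / 2 := by
  unfold qpoly
  rw [Lq_sum, sum_eq_single 0]
  · have h := Lq_U (M := M) 0 (by omega)
    rw [if_pos rfl] at h
    rw [Lq_C_mul, h, zero_add, h1, one_mul]
  · intro j hj hj0
    rw [mem_range] at hj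
    rw [Lq_C_mul, Lq_U j (by omega), if_neg hj0, mul_zero]
  · intro h
    simp at h
    omega

/-- the node polynomial `U_m + α U_{m-1}` -/
noncomputable def om (α : ℝ) (m : ℕ) : ℝ[X] :=
  Chebyshev.U ℝ (m : ℤ) + C α * Chebyshev.U ℝ ((m - 1 : ℕ) : ℤ)

lemma om_natDegree {α : ℝ} {m : ℕ} (hm : 1 ≤ m) : (om α m).natDegree = m := by
  unfold om
  rw [natDegree_add_eq_left_of_natDegree_lt]
  · exact Chebyshev.natDegree_U_natCast ℝ m
  · refine lt_of_le_of_lt (natDegree_C_mul_le _ _) ?_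
    rw [Chebyshev.natDegree_U_natCast, Chebyshev.natDegree_U_natCast]
    omega

lemma om_leadingCoeff {α : ℝ} {m : ℕ} (hm : 1 ≤ m) : (om α m).leadingCoeff = 2 ^ m := by
  unfold om
  rw [leadingCoeff_add_of_degree_lt']
  · exact Chebyshev.leadingCoeff_U_natCast ℝ m
  · apply degree_lt_degree
    refine lt_of_le_of_lt (natDegree_C_mul_le _ _) ?_
    rw [Chebyshev.natDegree_U_natCast, Chebyshev.natDegree_U_natCast]
    omega

lemma om_eq_nodal {α : ℝ} {m : ℕ} (hm : 1 ≤ m) {S : Finset ℝ} (hcard : S.card = m)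
    (hroot : ∀ x ∈ S, (om α m).eval x = 0) :
    om α m = C (2 ^ m) * Lagrange.nodal S id := by
  classical
  have hne : om α m ≠ 0 := by
    intro h
    have := om_leadingCoeff (α := α) hm
    rw [h, leadingCoeff_zero] at this
    have h2 : (0 : ℝ) < 2 ^ m := by positivity
    linarith
  have hmon : (Lagrange.nodal S (id : ℝ → ℝ)).Monic := Lagrange.nodal_monic
  have hdeg2 : (C ((2 : ℝ) ^ m) * Lagrange.nodal S id).natDegree = m := by
    rw [natDegree_C_mul (by positivity), Lagrange.natDegree_nodal, hcard]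
  have hlc : (C ((2 : ℝ) ^ m) * Lagrange.nodal S id).leadingCoeff = 2 ^ m := by
    rw [leadingCoeff_mul, leadingCoeff_C, hmon.leadingCoeff, mul_one]
  have hne2 : (C ((2 : ℝ) ^ m) * Lagrange.nodal S id) ≠ 0 :=
    mul_ne_zero (C_ne_zero.mpr (by positivity)) hmon.ne_zero
  have hd : (om α m).degree = m := by
    rw [degree_eq_natDegree hne, om_natDegree hm]
  have hd2 : (C ((2 : ℝ) ^ m) * Lagrange.nodal S id).degree = m := by
    rw [degree_eq_natDegree hne2, hdeg2]
  apply eq_of_degree_sub_lt_of_eval_finset_eq S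
  · have := degree_sub_lt (hd.trans hd2.symm) hne (by rw [om_leadingCoeff hm, hlc])
    rw [hd] at this
    rw [hcard]
    exact this
  · intro x hx
    rw [hroot x hx, eval_mul]
    have : (Lagrange.nodal S (id : ℝ → ℝ)).eval x = 0 := Lagrange.eval_nodal_at_node (v := id) hx
    rw [this, mul_zero]

lemma quad_main (p : ℝ[X]) {N m : ℕ} (hN : 1 ≤ N) (hm : 1 ≤ m) (hdeg : p.natDegree ≤ N)
    (h0 : p.coeff 0 = 0) (h1 : p.coeff 1 = 1)
    (hS : ∀ z : ℂ, ‖z‖ = 1 → 0 ≤ z.im → 0 ≤ (aeval z p).im)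
    {α : ℝ} (hNm : (α = 0 ∧ N ≤ 2 * m) ∨ N + 1 ≤ 2 * m) (hmN : 2 * m ≤ N + 1)
    {S : Finset ℝ} (hcard : S.card = m) (hroot : ∀ x ∈ S, (om α m).eval x = 0)
    {s xs : ℝ} (hSlo : ∀ x ∈ S, xs ≤ x) (hShi : ∀ x ∈ S, x < Real.cos s) (hxs : -1 ≤ xs)
    (hω : 0 ≤ (om α m).eval (Real.cos s)) :
    ((Chebyshev.T ℝ ((m + 1 : ℕ) : ℤ)).eval (Real.cos s) +
        α * (Chebyshev.T ℝ (m : ℤ)).eval (Real.cos s)) *
        (qpoly p N).eval (Real.cos s) ≤
    (om α m).eval (Real.cos s) *
        ((aeval (Complex.exp (s * Complex.I)) p).re - 1 / (2 * (Real.cos s - xs))) := by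
  classical
  set y := Real.cos s with hy
  set M := 4 * N + 10 with hM
  set q := qpoly p N with hq
  have horth : ∀ g : ℝ[X], g.natDegree + S.card ≤ N - 1 → Lq M (Lagrange.nodal S id * g) = 0 := by
    intro g hg
    have h2 : (C ((2 : ℝ) ^ m)) * (Lagrange.nodal S id * g) =
        Chebyshev.U ℝ (m : ℤ) * g + C α * (Chebyshev.U ℝ ((m - 1 : ℕ) : ℤ) * g) := by
      have := om_eq_nodal hm hcard hroot
      rw [← mul_assoc, ← this]
      unfold om
      ring
    have h3 := congrArg (Lq M) h2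
    rw [Lq_C_mul, Lq_add, Lq_C_mul] at h3
    rw [hcard] at hg
    have h4 : Lq M (Chebyshev.U ℝ (m : ℤ) * g) = 0 :=
      Lq_mul_U (d := g.natDegree) g le_rfl (by omega) (by omega)
    have h5 : α * Lq M (Chebyshev.U ℝ ((m - 1 : ℕ) : ℤ) * g) = 0 := by
      rcases hNm with ⟨h6, _⟩ | h6
      · rw [h6, zero_mul]
      · rw [Lq_mul_U (d := g.natDegree) g le_rfl (by omega) (by omega), mul_zero]
    rw [h4, h5, add_zero] at h3
    have h6 : (2 : ℝ) ^ m ≠ 0 := by positivity
    exact (mul_eq_zero.mp h3).resolve_left h6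
  set lam : ℝ → ℝ := fun x => Lq M (Lagrange.basis S id x) with hlam
  have hlam0 : ∀ x ∈ S, 0 ≤ lam x := fun x hx => weight_nonneg horth (by omega) hx
  set Dq : ℝ[X] := ∑ j ∈ range N, C (p.coeff (j + 1)) * Eq y j with hDq
  have hu : (aeval (Complex.exp (s * Complex.I)) p).re = y * q.eval y - Lq M Dq :=
    re_eq p hdeg h0 (by omega) s
  have hLD : Lq M Dq = ∑ x ∈ S, Dq.eval x * lam x := quad_nodes horth Dq
    ((Dq_natDegree p N y).trans (by omega))
  have hDx : ∀ x ∈ S, Dq.eval x = (q.eval y - q.eval x) / (y - x) := by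
    intro x hx
    have h2 := congrArg (fun P => P.eval x) (Dq_spec p N y)
    simp only [eval_mul, eval_sub, eval_X, eval_C] at h2
    have h3 : y - x ≠ 0 := by have := hShi x hx; linarith
    rw [eq_div_iff h3]
    linear_combination -h2
  have hLq : (1 : ℝ) / 2 = ∑ x ∈ S, q.eval x * lam x := by
    rw [← Lq_qpoly p hN (M := M) (by omega) h1]
    exact quad_nodes horth q (qpoly_natDegree p N)
  set Dw : ℝ[X] := Eq y m + C α * Eq y (m - 1) with hDw
  have hLw : Lq M Dw = ∑ x ∈ S, Dw.eval x * lam x := by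
    apply quad_nodes horth Dw
    refine (natDegree_add_le _ _).trans (max_le ((Eq_natDegree y m).trans (by omega)) ?_)
    exact (natDegree_C_mul_le _ _).trans ((Eq_natDegree y (m - 1)).trans (by omega))
  have hDwx : ∀ x ∈ S, Dw.eval x = (om α m).eval y / (y - x) := by
    intro x hx
    have h2 : (X - C y) * Dw = om α m - C ((om α m).eval y) := by
      rw [hDw, om, eval_add, eval_C_mul, C_add, C_mul]
      linear_combination Eq_spec y m + C α * Eq_spec y (m - 1)
    have h2 := congrArg (fun P => P.eval x) h2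
    simp only [eval_mul, eval_sub, eval_X, eval_C, hroot x hx] at h2
    have h3 : y - x ≠ 0 := by have := hShi x hx; linarith
    rw [eq_div_iff h3]
    linear_combination -h2
  have hLw2 : Lq M Dw = y * (om α m).eval y - ((Chebyshev.T ℝ ((m + 1 : ℕ) : ℤ)).eval y +
        α * (Chebyshev.T ℝ (m : ℤ)).eval y) := by
    rw [hDw, Lq_add, Lq_C_mul, Lq_Eq y m (by omega), Lq_Eq y (m - 1) (by omega)]
    have e : m - 1 + 1 = m := by omega
    rw [e]
    unfold om
    rw [eval_add, eval_C_mul]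
    ring
  have e1 : (om α m).eval y * ∑ x ∈ S, lam x / (y - x) = Lq M Dw := by
    rw [hLw, mul_sum]
    apply sum_congr rfl
    intro x hx
    rw [hDwx x hx]
    ring
  have e2 : Lq M Dq = q.eval y * ∑ x ∈ S, lam x / (y - x) -
      ∑ x ∈ S, q.eval x * lam x / (y - x) := by
    rw [hLD, mul_sum, ← sum_sub_distrib]
    apply sum_congr rfl
    intro x hx
    rw [hDx x hx]
    ring
  have e3 : 1 / (2 * (y - xs)) ≤ ∑ x ∈ S, q.eval x * lam x / (y - x) := by
    have e4 : 1 / (2 * (y - xs)) = ∑ x ∈ S, q.eval x * lam x / (y - xs) := by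
      rw [← sum_div, ← hLq]
      rw [div_div]
    rw [e4]
    apply sum_le_sum
    intro x hx
    have h2 := hSlo x hx
    have h3 := hShi x hx
    apply div_le_div_of_nonneg_left _ (by linarith) (by linarith)
    apply mul_nonneg _ (hlam0 x hx)
    exact qpoly_nonneg p hdeg h0 hS ⟨by linarith, h3.le.trans (Real.cos_le_one s)⟩
  rw [hu, e2]
  have e5 : (om α m).eval y * (y * q.eval y - (q.eval y * ∑ x ∈ S, lam x / (y - x) -
      ∑ x ∈ S, q.eval x * lam x / (y - x)) - 1 / (2 * (y - xs))) =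
      q.eval y * (y * (om α m).eval y - (om α m).eval y * ∑ x ∈ S, lam x / (y - x)) +
      (om α m).eval y * (∑ x ∈ S, q.eval x * lam x / (y - x) - 1 / (2 * (y - xs))) := by ring
  rw [e5, e1, hLw2]
  have e6 := mul_nonneg hω (sub_nonneg.mpr e3)
  linarith

end Pool.Agent.Helper809.Koe
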