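import Mathlib
import Pool.Agent.Helper809.Koe.Nodes

set_option autoImplicit false

open Polynomial Finset

namespace Pool.Agent.Helper809.Koe

open Pool.Agent.Helper766

lemma om_cos (α : ℝ) {m : ℕ} (hm : 1 ≤ m) (t : ℝ) :
    Real.sin t * (om α m).eval (Real.cos t) =
      Real.sin (((m : ℝ) + 1) * t) + α * Real.sin (m * t) := by
  unfold om
  rw [eval_add, eval_C_mul]
  have h1 := Chebyshev.U_real_cos t (m : ℤ)
  have h2 := Chebyshev.U_real_cos t ((m - 1 : ℕ) : ℤ)
  have e : (((m - 1 : ℕ) : ℤ) : ℝ) + 1 = m := by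
    have : m - 1 + 1 = m := by omega
    exact_mod_cast this
  rw [e] at h2
  push_cast at h1
  linear_combination h1 + α * h2

/-- value of the node polynomial at `cos (jπ/m)` -/
lemma om_at (α : ℝ) {m j : ℕ} (hj0 : 0 < j) (hjm : j < m) :
    (om α m).eval (Real.cos (j * Real.pi / m)) = (-1) ^ j := by
  have hm : (0 : ℝ) < m := by exact_mod_cast (by omega : 0 < m)
  have hj : (0 : ℝ) < j := by exact_mod_cast hj0
  have hjm' : (j : ℝ) < m := by exact_mod_cast hjm
  have h := om_cos α (m := m) (by omega) (j * Real.pi / m)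
  have e1 : ((m : ℝ) + 1) * (j * Real.pi / m) = j * Real.pi / m + j * Real.pi := by
    field_simp
    ring
  have e2 : (m : ℝ) * (j * Real.pi / m) = j * Real.pi := by field_simp
  rw [e1, e2, Real.sin_nat_mul_pi, mul_zero, add_zero, Real.sin_add_nat_mul_pi] at h
  have hs : 0 < Real.sin (j * Real.pi / m) := by
    apply Real.sin_pos_of_pos_of_lt_pi
    · positivity
    · rw [div_lt_iff₀ hm]
      nlinarith [Real.pi_pos]
  apply mul_left_cancel₀ hs.ne'
  rw [h]
  ring

lemma exists_nodes (α : ℝ) {m : ℕ} (hm : 2 ≤ m) {y xs : ℝ} (hy : Real.cos (Real.pi / m) < y)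
    (hωy : 0 < (om α m).eval y) (hxs : xs < Real.cos ((m - 1) * Real.pi / m))
    (hsign : 0 ≤ (-1) ^ m * (om α m).eval xs) :
    ∃ S : Finset ℝ, S.card = m ∧ (∀ x ∈ S, (om α m).eval x = 0) ∧ (∀ x ∈ S, xs ≤ x) ∧
      ∀ x ∈ S, x < y := by
  classical
  have hmR : (0 : ℝ) < m := by exact_mod_cast (by omega : 0 < m)
  set z : ℕ → ℝ := fun j => if j = 0 then y else if j = m then xs else Real.cos (j * Real.pi / m)
    with hz
  have hz0 : z 0 = y := by simp [hz]
  have hzm : z m = xs := by
    simp only [hz]
    rw [if_neg (by omega : ¬ m = 0)]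
    simp
  have hzj : ∀ j, 0 < j → j < m → z j = Real.cos (j * Real.pi / m) := by
    intro j h1 h2
    simp only [hz]
    rw [if_neg (by omega), if_neg (by omega)]
  have hanti : ∀ j, j < m → z (j + 1) < z j := by
    intro j hj
    rcases Nat.eq_zero_or_pos j with h | h
    · subst h
      rw [hz0, hzj 1 (by omega) (by omega)]
      simpa using hy
    · rw [hzj j h hj]
      rcases Nat.lt_or_ge (j + 1) m with h2 | h2
      · rw [hzj (j + 1) (by omega) h2]
        apply Real.cos_lt_cos_of_nonneg_of_le_pi (by positivity)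
        · rw [div_le_iff₀ hmR]
          have : ((j + 1 : ℕ) : ℝ) ≤ m := by exact_mod_cast h2.le
          nlinarith [Real.pi_pos]
        · apply div_lt_div_of_pos_right _ hmR
          push_cast
          nlinarith [Real.pi_pos]
      · have h3 : j + 1 = m := by omega
        rw [h3, hzm]
        have h4 : (j : ℝ) = m - 1 := by rw [← h3]; push_cast; ring
        rw [h4]
        exact hxs
  have hpos : ∀ j, j < m → 0 < (-1) ^ j * (om α m).eval (z j) := by
    intro j hj
    rcases Nat.eq_zero_or_pos j with h | h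
    · subst h
      rw [hz0]
      simpa using hωy
    · rw [hzj j h hj, om_at α h hj, ← mul_pow]
      norm_num
  have hnn : ∀ j, j ≤ m → 0 ≤ (-1) ^ j * (om α m).eval (z j) := by
    intro j hj
    rcases Nat.lt_or_ge j m with h | h
    · exact (hpos j h).le
    · have : j = m := by omega
      rw [this, hzm]
      exact hsign
  have hex : ∀ j, j < m → ∃ x, z (j + 1) ≤ x ∧ x < z j ∧ (om α m).eval x = 0 := by
    intro j hj
    have hc : ContinuousOn (fun x => (-1) ^ j * (om α m).eval x) (Set.Icc (z (j + 1)) (z j)) :=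
      (continuous_const.mul (om α m).continuous).continuousOn
    have h1 := intermediate_value_Icc (hanti j hj).le hc
    have h2 := hpos j hj
    have h3 := hnn (j + 1) (by omega)
    have h4 : (-1 : ℝ) ^ j * (om α m).eval (z (j + 1)) ≤ 0 := by
      rw [pow_succ] at h3
      linarith
    obtain ⟨x, hx, hx0⟩ := h1 ⟨h4, h2.le⟩
    simp only at hx0
    have hx1 : (om α m).eval x = 0 := by
      rcases mul_eq_zero.mp hx0 with h5 | h5
      · exact absurd h5 (pow_ne_zero _ (by norm_num))
      · exact h5
    refine ⟨x, hx.1, lt_of_le_of_ne hx.2 ?_, hx1⟩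
    intro h5
    rw [h5] at hx1
    rw [hx1] at h2
    simp at h2
  choose! x hx1 hx2 hx3 using hex
  have hzanti : ∀ i j, i ≤ j → j ≤ m → z j ≤ z i := by
    intro i j hij
    induction j, hij using Nat.le_induction with
    | base => intro _; exact le_rfl
    | succ j _ ih => intro hj; exact (hanti j (by omega)).le.trans (ih (by omega))
  have hxanti : ∀ i j, i < j → j < m → x j < x i := by
    intro i j hij hj
    exact lt_of_lt_of_le (hx2 j hj) ((hzanti (i + 1) j hij hj.le).trans (hx1 i (by omega)))
  refine ⟨(range m).image x, ?_, ?_, ?_, ?_⟩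
  · rw [card_image_of_injOn, card_range]
    intro i hi j hj hij
    simp only [coe_range, Set.mem_Iio] at hi hj
    rcases lt_trichotomy i j with h | h | h
    · exact absurd hij (hxanti i j h hj).ne'
    · exact h
    · exact absurd hij (hxanti j i h hi).ne
  · intro w hw
    rw [mem_image] at hw
    obtain ⟨j, hj, rfl⟩ := hw
    exact hx3 j (mem_range.mp hj)
  · intro w hw
    rw [mem_image] at hw
    obtain ⟨j, hj, rfl⟩ := hw
    rw [mem_range] at hj
    rw [← hzm]
    exact (hzanti (j + 1) m hj le_rfl).trans (hx1 j hj)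
  · intro w hw
    rw [mem_image] at hw
    obtain ⟨j, hj, rfl⟩ := hw
    rw [mem_range] at hj
    rw [← hz0]
    exact lt_of_lt_of_le (hx2 j hj) (hzanti 0 j (by omega) hj.le)

end Pool.Agent.Helper809.Koe
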