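import Mathlib
import Pool.Agent.Helper809.Koe.Roots
import Pool.Agent.Helper766.G.Exists

set_option autoImplicit false

open Polynomial Finset

namespace Pool.Agent.Helper809.Koe

open Pool.Agent.Helper766 Pool.Agent.Helper766.G Pool.Agent.Results.MP_6cc408_an.RealAxisSharp

lemma bad_deg {N : ℕ} {p : ℝ[X]} {ρ δ s : ℝ} (hb : Bad N p ρ δ s) : p.natDegree ≤ N := hb.cls.1.le

lemma bad_circle {N : ℕ} {p : ℝ[X]} {ρ δ s : ℝ} (hb : Bad N p ρ δ s) :
    ∀ z : ℂ, ‖z‖ = 1 → 0 ≤ z.im → 0 ≤ (aeval z p).im := by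
  intro z hz hzi
  exact im_circle_nonneg p (deriv_zero hb.cls.2.2.1) hb.cls.2.2.2 hz hzi

lemma bad_re {N : ℕ} {p : ℝ[X]} {ρ δ s : ℝ} (hb : Bad N p ρ δ s) :
    (aeval (Complex.exp (s * Complex.I)) p).re = ρ * Real.cos δ := by
  rw [hb.hit, Complex.re_ofReal_mul, Complex.exp_ofReal_mul_I_re]

lemma bad_im {N : ℕ} {p : ℝ[X]} {ρ δ s : ℝ} (hb : Bad N p ρ δ s) :
    (aeval (Complex.exp (s * Complex.I)) p).im = ρ * Real.sin δ := by
  rw [hb.hit, Complex.im_ofReal_mul, Complex.exp_ofReal_mul_I_im]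

/-- The `P` side: the quadrature inequality for the counterexample. -/
theorem pside {N : ℕ} {p : ℝ[X]} {ρ δ s : ℝ} (hb : Bad N p ρ δ s) {m : ℕ} (hm : 2 ≤ m) {α : ℝ}
    (hNm : (α = 0 ∧ N ≤ 2 * m) ∨ N + 1 ≤ 2 * m) (hmN : 2 * m ≤ N + 1) {θ : ℝ}
    (hs : s < Real.pi / m) (hθ0 : 0 < θ) (hθ : θ < Real.pi / m)
    (hω : 0 < Real.sin (((m : ℝ) + 1) * s) + α * Real.sin (m * s))
    (hsign : 0 ≤ Real.sin (((m : ℝ) + 1) * θ) - α * Real.sin (m * θ)) :
    Real.sin (((m : ℝ) + 1) * s) + α * Real.sin (m * s) ≤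
      2 * (Real.cos s + Real.cos θ) * ρ *
        (Real.sin (((m : ℝ) + 1) * s - δ) + α * Real.sin (m * s - δ)) := by
  have hmR : (2 : ℝ) ≤ m := by exact_mod_cast hm
  have hmpos : (0 : ℝ) < m := by linarith
  have hpi := Real.pi_pos
  have hm2 : Real.pi / m ≤ Real.pi / 2 := div_le_div_of_nonneg_left hpi.le (by norm_num) hmR
  have hs0 := hb.s_pos
  have hsπ : s < Real.pi := hb.s_lt
  have hsin : 0 < Real.sin s := Real.sin_pos_of_pos_of_lt_pi hs0 hsπ
  have hθπ : θ < Real.pi := by linarith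
  have hsinθ : 0 < Real.sin θ := Real.sin_pos_of_pos_of_lt_pi hθ0 hθπ
  have homs := om_cos α (m := m) (by omega) s
  have hωy : 0 < (om α m).eval (Real.cos s) := by
    have h : 0 < Real.sin s * (om α m).eval (Real.cos s) := by rw [homs]; exact hω
    exact (pos_iff_pos_of_mul_pos h).mp hsin
  have hy : Real.cos (Real.pi / m) < Real.cos s :=
    Real.cos_lt_cos_of_nonneg_of_le_pi hs0.le (by linarith) hs
  have hxs : -Real.cos θ < Real.cos ((m - 1) * Real.pi / m) := by
    have e : ((m : ℝ) - 1) * Real.pi / m = Real.pi - Real.pi / m := by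
      field_simp
    rw [e, Real.cos_pi_sub]
    have := Real.cos_lt_cos_of_nonneg_of_le_pi hθ0.le (by linarith) hθ
    linarith
  have hsign' : 0 ≤ (-1) ^ m * (om α m).eval (-Real.cos θ) := by
    have h := om_cos α (m := m) (by omega) (Real.pi - θ)
    rw [Real.cos_pi_sub, Real.sin_pi_sub] at h
    have e1 : ((m : ℝ) + 1) * (Real.pi - θ) = ((m + 1 : ℕ) : ℝ) * Real.pi - (m + 1) * θ := by
      push_cast; ring
    have e2 : (m : ℝ) * (Real.pi - θ) = (m : ℝ) * Real.pi - m * θ := by ring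
    rw [e1, e2, Real.sin_nat_mul_pi_sub, Real.sin_nat_mul_pi_sub] at h
    have h2 : Real.sin θ * ((-1) ^ m * (om α m).eval (-Real.cos θ)) =
        ((-1) ^ m * (-1) ^ m) * (Real.sin (((m : ℝ) + 1) * θ) - α * Real.sin (m * θ)) := by
      rw [pow_succ] at h
      linear_combination (-1) ^ m * h
    have h3 : ((-1 : ℝ) ^ m * (-1) ^ m) = 1 := by
      rw [← mul_pow]; norm_num
    rw [h3, one_mul] at h2
    have h4 : 0 ≤ Real.sin θ * ((-1) ^ m * (om α m).eval (-Real.cos θ)) := by rw [h2]; exact hsign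
    exact nonneg_of_mul_nonneg_right h4 hsinθ
  obtain ⟨S, hcard, hroot, hlo, hhi⟩ := exists_nodes α hm hy hωy hxs hsign'
  have hmain := quad_main p (N := N) (m := m) (by omega) (by omega) (bad_deg hb) hb.cls.2.1
    hb.cls.2.2.1 (bad_circle hb) hNm hmN hcard hroot hlo hhi
    (by linarith [Real.cos_le_one θ]) hωy.le
  have hq := qpoly_sin p (bad_deg hb) hb.cls.2.1 s
  rw [bad_im hb] at hq
  rw [bad_re hb] at hmain
  have hT1 : (Chebyshev.T ℝ ((m + 1 : ℕ) : ℤ)).eval (Real.cos s) = Real.cos (((m : ℝ) + 1) * s) := by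
    rw [Chebyshev.T_real_cos]; push_cast; ring_nf
  have hT2 : (Chebyshev.T ℝ (m : ℤ)).eval (Real.cos s) = Real.cos (m * s) := by
    rw [Chebyshev.T_real_cos]; push_cast; ring_nf
  rw [hT1, hT2] at hmain
  have hcc : 0 < Real.cos s - -Real.cos θ := by
    have h1 := Real.cos_lt_cos_of_nonneg_of_le_pi hs0.le (by linarith : Real.pi / m ≤ Real.pi) hs
    have h2 := Real.cos_lt_cos_of_nonneg_of_le_pi hθ0.le (by linarith : Real.pi / m ≤ Real.pi) hθ
    have h3 : 0 ≤ Real.cos (Real.pi / m) := Real.cos_nonneg_of_mem_Icc ⟨by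
      have : 0 < Real.pi / m := by positivity
      linarith, hm2⟩
    linarith
  have h5 := mul_le_mul_of_nonneg_left hmain hsin.le
  set W := Real.sin (((m : ℝ) + 1) * s) + α * Real.sin (m * s) with hW
  have h6 : (Real.cos (((m : ℝ) + 1) * s) + α * Real.cos (m * s)) * (ρ * Real.sin δ) ≤
      W * (ρ * Real.cos δ - 1 / (2 * (Real.cos s - -Real.cos θ))) := by
    rw [← hq, ← homs]
    calc _ = Real.sin s * ((Real.cos (((m : ℝ) + 1) * s) + α * Real.cos (m * s)) *
          (qpoly p N).eval (Real.cos s)) := by ring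
      _ ≤ _ := h5
      _ = _ := by ring
  have h7 : Real.sin (((m : ℝ) + 1) * s - δ) + α * Real.sin (m * s - δ) =
      W * Real.cos δ - (Real.cos (((m : ℝ) + 1) * s) + α * Real.cos (m * s)) * Real.sin δ := by
    rw [hW, Real.sin_sub, Real.sin_sub]
    ring
  rw [h7]
  set c := Real.cos s - -Real.cos θ with hc
  have h8 : W * (1 / (2 * c)) ≤ ρ * (W * Real.cos δ -
      (Real.cos (((m : ℝ) + 1) * s) + α * Real.cos (m * s)) * Real.sin δ) := by linarith
  have h9 : W = 2 * c * (W * (1 / (2 * c))) := by field_simp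
  have h10 : Real.cos s + Real.cos θ = c := by rw [hc]; ring
  rw [h10]
  calc W = 2 * c * (W * (1 / (2 * c))) := h9
    _ ≤ 2 * c * (ρ * (W * Real.cos δ -
      (Real.cos (((m : ℝ) + 1) * s) + α * Real.cos (m * s)) * Real.sin δ)) := by
        apply mul_le_mul_of_nonneg_left h8 (by positivity)
    _ = _ := by ring

/-- Fejér's bound for the second coefficient -/
theorem coeff_two_ge (p : ℝ[X]) {N : ℕ} (hN : 2 ≤ N) (hdeg : p.natDegree ≤ N)
    (h0 : p.coeff 0 = 0) (h1 : p.coeff 1 = 1)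
    (hS : ∀ z : ℂ, ‖z‖ = 1 → 0 ≤ z.im → 0 ≤ (aeval z p).im) :
    -(2 * Real.cos (2 * Real.pi / ((N : ℝ) + 3))) ≤ p.coeff 2 := by
  set M := N + 3 with hM
  have hMc : (M : ℝ) = (N : ℝ) + 3 := by rw [hM]; push_cast; ring
  have hMpos : (0 : ℝ) < M := by rw [hMc]; positivity
  have hqneg : ∀ x : ℝ, (qpoly p N).eval (-x) =
      ∑ j ∈ range N, p.coeff (j + 1) * ((-1) ^ j * (Chebyshev.U ℝ (j : ℤ)).eval x) := by
    intro x
    unfold qpoly
    rw [eval_finsetSum]
    apply sum_congr rfl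
    intro j _
    rw [eval_C_mul, Chebyshev.U_eval_neg]
    simp [Int.negOnePow_def]
  have hA : ∑ k ∈ range M, (qpoly p N).eval (-nd M k) * (1 - nd M k ^ 2) = (M : ℝ) / 2 := by
    simp only [hqneg, sum_mul]
    rw [sum_comm]
    have e1 : ∀ j ∈ range N, ∑ k ∈ range M,
        p.coeff (j + 1) * ((-1) ^ j * (Chebyshev.U ℝ (j : ℤ)).eval (nd M k)) * (1 - nd M k ^ 2) =
        p.coeff (j + 1) * (-1) ^ j * (if j = 0 then (M : ℝ) / 2 else 0) := by
      intro j hj
      rw [mem_range] at hj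
      rw [← sum_U_sq_nodes (M := M) j (by omega), mul_sum]
      apply sum_congr rfl
      intro k _
      ring
    rw [sum_congr rfl e1, sum_eq_single 0]
    · simp [h1]
    · intro j _ hj
      simp [hj]
    · intro h
      simp at h
      omega
  have hB : ∑ k ∈ range M, (qpoly p N).eval (-nd M k) * (1 - nd M k ^ 2) * nd M k =
      -(p.coeff 2 * (M : ℝ) / 4) := by
    simp only [hqneg, sum_mul]
    rw [sum_comm]
    have e1 : ∀ j ∈ range N, ∑ k ∈ range M,
        p.coeff (j + 1) * ((-1) ^ j * (Chebyshev.U ℝ (j : ℤ)).eval (nd M k)) * (1 - nd M k ^ 2) *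
          nd M k =
        p.coeff (j + 1) * (-1) ^ j * (if j = 1 then (M : ℝ) / 4 else 0) := by
      intro j hj
      rw [mem_range] at hj
      have e2 : ∑ k ∈ range M, (Chebyshev.U ℝ (j : ℤ)).eval (nd M k) * nd M k * (1 - nd M k ^ 2) =
          if j = 1 then (M : ℝ) / 4 else 0 := by
        rcases Nat.eq_zero_or_pos j with h | h
        · subst h
          have h2 := sum_U_sq_nodes (M := M) 1 (by omega)
          rw [if_neg (by norm_num)] at h2
          simp only [Nat.cast_one, Chebyshev.U_one, eval_mul, eval_ofNat, eval_X] at h2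
          simp only [Nat.cast_zero, Chebyshev.U_zero, eval_one, one_mul]
          rw [if_neg (by norm_num)]
          have h3 : ∑ k ∈ range M, 2 * nd M k * (1 - nd M k ^ 2) =
              2 * ∑ k ∈ range M, nd M k * (1 - nd M k ^ 2) := by
            rw [mul_sum]
            apply sum_congr rfl
            intro k _
            ring
          rw [h3] at h2
          linarith
        · obtain ⟨n, rfl⟩ : ∃ n, j = n + 1 := ⟨j - 1, by omega⟩
          have h2 := sum_U_sq_nodes (M := M) n (by omega)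
          have h3 := sum_U_sq_nodes (M := M) (n + 2) (by omega)
          rw [if_neg (by omega)] at h3
          have h4 : ∀ x : ℝ, (Chebyshev.U ℝ ((n + 1 : ℕ) : ℤ)).eval x * x =
              ((Chebyshev.U ℝ ((n + 2 : ℕ) : ℤ)).eval x + (Chebyshev.U ℝ (n : ℤ)).eval x) / 2 := by
            intro x
            have h5 := congrArg (fun P => P.eval x) (Chebyshev.U_add_two ℝ (n : ℤ))
            simp only [eval_sub, eval_mul, eval_ofNat, eval_X] at h5
            have e3 : ((n + 2 : ℕ) : ℤ) = (n : ℤ) + 2 := by push_cast; ring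
            have e4 : ((n + 1 : ℕ) : ℤ) = (n : ℤ) + 1 := by push_cast; ring
            rw [e3, e4, h5]
            ring
          have h6 : ∑ k ∈ range M, (Chebyshev.U ℝ ((n + 1 : ℕ) : ℤ)).eval (nd M k) * nd M k *
              (1 - nd M k ^ 2) = (∑ k ∈ range M, (Chebyshev.U ℝ ((n + 2 : ℕ) : ℤ)).eval (nd M k) *
              (1 - nd M k ^ 2) + ∑ k ∈ range M, (Chebyshev.U ℝ (n : ℤ)).eval (nd M k) *
              (1 - nd M k ^ 2)) / 2 := by
            rw [← sum_add_distrib, sum_div]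
            apply sum_congr rfl
            intro k _
            rw [h4]
            ring
          rw [h6, h3, h2]
          by_cases hn : n = 0
          · subst hn
            simp
            ring
          · rw [if_neg hn, if_neg (by omega)]
            simp
      rw [← e2, mul_sum]
      apply sum_congr rfl
      intro k _
      ring
    rw [sum_congr rfl e1, sum_eq_single 1]
    · simp
      ring
    · intro j _ hj
      simp [hj]
    · intro h
      simp at h
      omega
  set c := Real.cos (2 * Real.pi / (M : ℝ)) with hc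
  have hC : 0 ≤ ∑ k ∈ range M, (qpoly p N).eval (-nd M k) * (1 - nd M k ^ 2) * (c - nd M k) := by
    apply sum_nonneg
    intro k hk
    rw [mem_range] at hk
    have hx := nd_mem M k
    rcases Nat.eq_zero_or_pos k with h | h
    · subst h
      have : nd M 0 = 1 := by unfold nd; simp
      rw [this]
      simp
    · have h2 := nd_le h hk
      have h3 := qpoly_nonneg p hdeg h0 hS (x := -nd M k) ⟨by linarith [hx.2], by linarith [hx.1]⟩
      exact mul_nonneg (mul_nonneg h3 (one_sub_nd_sq M k)) (by linarith)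
  have hD : ∑ k ∈ range M, (qpoly p N).eval (-nd M k) * (1 - nd M k ^ 2) * (c - nd M k) =
      c * ∑ k ∈ range M, (qpoly p N).eval (-nd M k) * (1 - nd M k ^ 2) -
      ∑ k ∈ range M, (qpoly p N).eval (-nd M k) * (1 - nd M k ^ 2) * nd M k := by
    rw [mul_sum, ← sum_sub_distrib]
    apply sum_congr rfl
    intro k _
    ring
  rw [hD, hA, hB] at hC
  rw [← hMc]
  have h7 : 0 ≤ (M : ℝ) * (2 * c + p.coeff 2) := by linarith
  have h8 := nonneg_of_mul_nonneg_right h7 hMpos
  linarith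

theorem bad_b2 {N : ℕ} (hN : 2 ≤ N) {p : ℝ[X]} {ρ δ s : ℝ} (hb : Bad N p ρ δ s) :
    2 - p.coeff 2 ≤ 2 + 2 * Real.cos (2 * Real.pi / ((N : ℝ) + 3)) := by
  have := coeff_two_ge p hN (bad_deg hb) hb.cls.2.1 hb.cls.2.2.1 (bad_circle hb)
  linarith

end Pool.Agent.Helper809.Koe
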