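import Mathlib
import Pool.Agent.Helper809.Koe.PSide

set_option autoImplicit false

open Polynomial Finset

namespace Pool.Agent.Helper809.Koe

open Pool.Agent.Helper766 Pool.Agent.Helper766.G Pool.Agent.Results.MP_6cc408_an.RealAxisSharp

lemma cos_pi_ne {N : ℕ} (hN : 1 ≤ N) : 0 < Real.cos (Real.pi / ((N : ℝ) + 2)) := by
  have hN1 : (1 : ℝ) ≤ N := by exact_mod_cast hN
  apply Real.cos_pos_of_mem_Ioo
  constructor
  · have : 0 < Real.pi / ((N : ℝ) + 2) := by positivity
    linarith [Real.pi_pos]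
  · rw [div_lt_div_iff₀ (by positivity) (by norm_num)]
    nlinarith [Real.pi_pos]

lemma VN_eq {N : ℕ} (hN : 1 ≤ N) :
    VN N * (2 * (1 + Real.cos (2 * Real.pi / ((N : ℝ) + 2)))) = 1 := by
  have h := cos_pi_ne hN
  unfold VN
  have e : 2 * Real.pi / ((N : ℝ) + 2) = 2 * (Real.pi / ((N : ℝ) + 2)) := by ring
  rw [e, Real.cos_two_mul]
  field_simp
  ring

/-- `ρ · 2(1 + cos(2π/(N+2))) < 1` -/
lemma bad_rho {N : ℕ} (hN : 1 ≤ N) {p : ℝ[X]} {ρ δ s : ℝ} (hb : Bad N p ρ δ s) :
    ρ * (2 * (1 + Real.cos (2 * Real.pi / ((N : ℝ) + 2)))) < 1 := by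
  have h := VN_eq hN
  have h2 : 0 < 2 * (1 + Real.cos (2 * Real.pi / ((N : ℝ) + 2))) := by
    have hc := cos_pi_ne hN
    have e : 2 * Real.pi / ((N : ℝ) + 2) = 2 * (Real.pi / ((N : ℝ) + 2)) := by ring
    rw [e, Real.cos_two_mul]
    nlinarith
  calc ρ * (2 * (1 + Real.cos (2 * Real.pi / ((N : ℝ) + 2)))) <
      VN N * (2 * (1 + Real.cos (2 * Real.pi / ((N : ℝ) + 2)))) :=
        mul_lt_mul_of_pos_right hb.rho_lt h2
    _ = 1 := h

/-- even degree -/
theorem s_even {m : ℕ} (hm : 2 ≤ m) {p : ℝ[X]} {ρ δ s : ℝ} (hb : Bad (2 * m) p ρ δ s) :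
    Real.pi / (2 * (m : ℝ) + 2) < s := by
  by_contra hcon
  push Not at hcon
  have hmR : (2 : ℝ) ≤ m := by exact_mod_cast hm
  have hpi := Real.pi_pos
  have hs0 := hb.s_pos
  have hm1 : (0 : ℝ) < (m : ℝ) + 1 := by linarith
  have h1 : ((m : ℝ) + 1) * s ≤ Real.pi / 2 := by
    have h2 := mul_le_mul_of_nonneg_left hcon hm1.le
    have h3 : ((m : ℝ) + 1) * (Real.pi / (2 * (m : ℝ) + 2)) = Real.pi / 2 := by
      field_simp
    linarith
  have h1' : 0 < ((m : ℝ) + 1) * s := by positivity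
  have hsin : 0 < Real.sin (((m : ℝ) + 1) * s) :=
    Real.sin_pos_of_pos_of_lt_pi h1' (by linarith)
  set θ : ℝ := Real.pi / ((m : ℝ) + 1) with hθ
  have hθ0 : 0 < θ := by positivity
  have hθm : ((m : ℝ) + 1) * θ = Real.pi := by rw [hθ]; field_simp
  have key := pside hb hm (α := 0) (Or.inl ⟨rfl, le_rfl⟩) (by omega) (θ := θ)
    (by
      refine lt_of_le_of_lt hcon ?_
      rw [div_lt_div_iff₀ (by positivity) (by positivity)]
      nlinarith) hθ0
    (by
      rw [hθ, div_lt_div_iff₀ (by positivity) (by positivity)]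
      nlinarith)
    (by simpa using hsin) (by rw [hθm, Real.sin_pi]; simp)
  simp only [zero_mul, add_zero] at key
  have hN : 1 ≤ 2 * m := by omega
  have hρ := bad_rho hN hb
  have eθ : 2 * Real.pi / (((2 * m : ℕ) : ℝ) + 2) = θ := by
    rw [hθ]; push_cast; field_simp
  rw [eθ] at hρ
  have hcosθ : 0 ≤ Real.cos θ := by
    apply Real.cos_nonneg_of_mem_Icc
    constructor
    · linarith
    · rw [hθ, div_le_div_iff₀ (by positivity) (by norm_num)]
      nlinarith
  have hd := hb.d_pos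
  have hd2 := hb.d_le
  have h4 : Real.sin (((m : ℝ) + 1) * s - δ) ≤ Real.sin (((m : ℝ) + 1) * s) := by
    apply Real.sin_le_sin_of_le_of_le_pi_div_two (by linarith) h1 (by linarith)
  have hc0 : 0 ≤ Real.cos s := by
    apply Real.cos_nonneg_of_mem_Icc
    constructor
    · linarith
    · nlinarith
  have h5 : 0 ≤ 2 * (Real.cos s + Real.cos θ) * ρ := by
    have := hb.rho_pos
    positivity
  have h6 : 2 * (Real.cos s + Real.cos θ) * ρ < 1 := by
    have h7 := Real.cos_le_one s
    have h8 := hb.rho_pos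
    nlinarith
  have h7 : 2 * (Real.cos s + Real.cos θ) * ρ * Real.sin (((m : ℝ) + 1) * s - δ) ≤
      2 * (Real.cos s + Real.cos θ) * ρ * Real.sin (((m : ℝ) + 1) * s) :=
    mul_le_mul_of_nonneg_left h4 h5
  nlinarith

lemma cos_13 : (1 : ℝ) / 4 ≤ Real.cos (13 / 10) := by
  have h1 : Real.cos (13 / 10) = Real.sin (Real.pi / 2 - 13 / 10) := by
    rw [Real.sin_pi_div_two_sub]
  rw [h1]
  have hp1 := Real.pi_gt_d2
  have hp2 := Real.pi_lt_d2
  have h2 : (0 : ℝ) < Real.pi / 2 - 13 / 10 := by linarith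
  have h3 := Real.sin_gt_sub_cube h2
  have h4 : (Real.pi / 2 - 13 / 10) ^ 3 ≤ (275 / 1000) ^ 3 := by
    apply pow_le_pow_left₀ h2.le
    linarith
  norm_num at h4
  linarith

lemma cos_1375 : (193 : ℝ) / 1000 ≤ Real.cos (1375 / 1000) := by
  have h1 : Real.cos (1375 / 1000) = Real.sin (Real.pi / 2 - 1375 / 1000) := by
    rw [Real.sin_pi_div_two_sub]
  rw [h1]
  have hp1 := Real.pi_gt_d4
  have hp2 := Real.pi_lt_d4
  have h2 : (0 : ℝ) < Real.pi / 2 - 1375 / 1000 := by linarith
  have h3 := Real.sin_gt_sub_cube h2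
  have h4 : (Real.pi / 2 - 1375 / 1000) ^ 3 ≤ (196 / 1000) ^ 3 := by
    apply pow_le_pow_left₀ h2.le
    linarith
  norm_num at h4
  linarith

lemma sin_le_four {x : ℝ} (h0 : 0 ≤ x) (h1 : x ≤ 1375 / 1000) :
    Real.sin x ≤ 4 * x * Real.cos x := by
  have hp1 := Real.pi_gt_d2
  rcases le_or_gt x (13 / 10) with h | h
  · have h2 : Real.cos (13 / 10) ≤ Real.cos x :=
      Real.cos_le_cos_of_nonneg_of_le_pi h0 (by linarith) h
    have h3 := cos_13
    have h4 := Real.sin_le h0
    nlinarith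
  · have h2 : Real.cos (1375 / 1000) ≤ Real.cos x :=
      Real.cos_le_cos_of_nonneg_of_le_pi h0 (by linarith) h1
    have h3 := cos_1375
    have h4 := Real.sin_le_one x
    nlinarith

lemma mul_cos_le_sin {x : ℝ} (h0 : 0 ≤ x) (h1 : x < Real.pi / 2) : x * Real.cos x ≤ Real.sin x := by
  have hc : 0 < Real.cos x := Real.cos_pos_of_mem_Ioo ⟨by linarith [Real.pi_pos], h1⟩
  have h2 := Real.le_tan h0 h1
  rw [Real.tan_eq_sin_div_cos, le_div_iff₀ hc] at h2
  exact h2

/-- odd degree `≥ 7` -/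
theorem s_odd {m : ℕ} (hm : 4 ≤ m) {p : ℝ[X]} {ρ δ s : ℝ} (hb : Bad (2 * m - 1) p ρ δ s) :
    (275 / 100) / (2 * (m : ℝ) + 1) < s := by
  by_contra hcon
  push Not at hcon
  have hmR : (4 : ℝ) ≤ m := by exact_mod_cast hm
  have hpi := Real.pi_pos
  have hp1 := Real.pi_gt_d2
  have hp2 := Real.pi_lt_d2
  have hs0 := hb.s_pos
  set h : ℝ := (m : ℝ) + 1 / 2 with hh
  have hhpos : (0 : ℝ) < h := by linarith
  have hh2 : 2 * (m : ℝ) + 1 = 2 * h := by rw [hh]; ring
  rw [hh2] at hcon
  have hhs : h * s ≤ 1375 / 1000 := by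
    rw [le_div_iff₀ (by positivity)] at hcon
    linarith
  have hhs0 : 0 < h * s := by positivity
  have hs9 : s ≤ 31 / 100 := by nlinarith
  set θ0 : ℝ := Real.pi / h with hθ0
  have hθ0pos : 0 < θ0 := by positivity
  have hhθ0 : h * θ0 = Real.pi := by rw [hθ0]; field_simp
  have hθ0lt : θ0 < 7 / 10 := by
    rw [hθ0, div_lt_iff₀ hhpos]
    linarith
  have hsθ0 : s < θ0 := by
    have : h * s < h * θ0 := by rw [hhθ0]; linarith
    exact lt_of_mul_lt_mul_left this hhpos.le
  have hcs : Real.cos θ0 < Real.cos s :=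
    Real.cos_lt_cos_of_nonneg_of_le_pi hs0.le (by linarith) hsθ0
  have hcs1 : Real.cos s < 1 := by
    have := Real.cos_lt_cos_of_nonneg_of_le_pi le_rfl (by linarith) hs0
    rwa [Real.cos_zero] at this
  set θ : ℝ := Real.arccos (1 + Real.cos θ0 - Real.cos s) with hθ
  have hcosθ : Real.cos θ = 1 + Real.cos θ0 - Real.cos s := by
    rw [hθ]
    apply Real.cos_arccos
    · linarith [Real.neg_one_le_cos θ0]
    · linarith
  have hθpos : 0 < θ := by
    rw [hθ, Real.arccos_pos]
    linarith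
  have hθle : θ ≤ θ0 := by
    have h1 : Real.arccos (1 + Real.cos θ0 - Real.cos s) ≤ Real.arccos (Real.cos θ0) :=
      Real.arccos_le_arccos (by linarith)
    rwa [Real.arccos_cos hθ0pos.le (by linarith)] at h1
  have hms : (m : ℝ) * s < Real.pi / 2 := by
    have : (m : ℝ) * s ≤ h * s := by
      apply mul_le_mul_of_nonneg_right _ hs0.le
      linarith
    linarith
  have hms0 : 0 < (m : ℝ) * s := by positivity
  have hcms : 0 < Real.cos (m * s) := Real.cos_pos_of_mem_Ioo ⟨by linarith, hms⟩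
  have hsins : 0 < Real.sin s := Real.sin_pos_of_pos_of_lt_pi hs0 (by linarith)
  set α : ℝ := -Real.cos (((m : ℝ) + 1) * s) / Real.cos (m * s) with hα
  have hαc : α * Real.cos (m * s) = -Real.cos (((m : ℝ) + 1) * s) := by
    rw [hα]; field_simp
  have hW : (Real.sin (((m : ℝ) + 1) * s) + α * Real.sin (m * s)) * Real.cos (m * s) =
      Real.sin s := by
    have e : s = ((m : ℝ) + 1) * s - m * s := by ring
    conv_rhs => rw [e, Real.sin_sub]
    linear_combination Real.sin (m * s) * hαc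
  have hWpos : 0 < Real.sin (((m : ℝ) + 1) * s) + α * Real.sin (m * s) := by
    have h1 : 0 < (Real.sin (((m : ℝ) + 1) * s) + α * Real.sin (m * s)) * Real.cos (m * s) := by
      rw [hW]; exact hsins
    exact (pos_iff_pos_of_mul_pos h1).mpr hcms
  -- the sign condition
  have hG : 0 ≤ Real.cos (m * s) * Real.sin (((m : ℝ) + 1) * θ) +
      Real.cos (((m : ℝ) + 1) * s) * Real.sin (m * θ) := by
    set φ : ℝ := h * (θ0 - θ) with hφ
    have hφ0 : 0 ≤ φ := mul_nonneg hhpos.le (by linarith)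
    have hφπ : φ < Real.pi := by
      rw [hφ, mul_sub, hhθ0]
      have : 0 < h * θ := by positivity
      linarith
    have e1 : Real.sin (h * θ) = Real.sin φ := by
      rw [hφ, mul_sub, hhθ0, Real.sin_pi_sub]
    have e2 : Real.cos (h * θ) = -Real.cos φ := by
      rw [hφ, mul_sub, hhθ0, Real.cos_pi_sub, neg_neg]
    have e3 : Real.cos (m * s) * Real.sin (((m : ℝ) + 1) * θ) +
      Real.cos (((m : ℝ) + 1) * s) * Real.sin (m * θ) =
      2 * (Real.cos (h * s) * Real.cos (s / 2) * (Real.sin (h * θ) * Real.cos (θ / 2)) +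
        Real.sin (h * s) * Real.sin (s / 2) * (Real.cos (h * θ) * Real.sin (θ / 2))) := by
      have a1 : (m : ℝ) * s = h * s - s / 2 := by rw [hh]; ring
      have a2 : ((m : ℝ) + 1) * θ = h * θ + θ / 2 := by rw [hh]; ring
      have a3 : ((m : ℝ) + 1) * s = h * s + s / 2 := by rw [hh]; ring
      have a4 : (m : ℝ) * θ = h * θ - θ / 2 := by rw [hh]; ring
      rw [a1, a2, a3, a4, Real.cos_sub, Real.sin_add, Real.cos_add, Real.sin_sub]
      ring
    rw [e3, e1, e2]
    have c1 : 0 ≤ Real.cos (h * s) := Real.cos_nonneg_of_mem_Icc ⟨by linarith, by linarith⟩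
    have c2 : 0 ≤ Real.cos (s / 2) := Real.cos_nonneg_of_mem_Icc ⟨by linarith, by linarith⟩
    have c3 : 0 ≤ Real.cos (θ / 2) := Real.cos_nonneg_of_mem_Icc ⟨by linarith, by linarith⟩
    have c4 : 0 ≤ Real.sin (h * s) := Real.sin_nonneg_of_nonneg_of_le_pi hhs0.le (by linarith)
    have c5 : 0 ≤ Real.sin (s / 2) := Real.sin_nonneg_of_nonneg_of_le_pi (by linarith) (by linarith)
    have c6 : 0 ≤ Real.sin (θ / 2) := Real.sin_nonneg_of_nonneg_of_le_pi (by linarith) (by linarith)
    have c7 : 0 ≤ Real.sin φ := Real.sin_nonneg_of_nonneg_of_le_pi hφ0 hφπ.le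
    rcases lt_or_ge φ (Real.pi / 2) with hφ2 | hφ2
    · have d1 := mul_cos_le_sin hφ0 hφ2
      have c8 : 0 ≤ Real.cos φ := Real.cos_nonneg_of_mem_Icc ⟨by linarith, hφ2.le⟩
      -- E ≥ 0
      have hsinθ0 : 0 < Real.sin θ0 := Real.sin_pos_of_pos_of_lt_pi hθ0pos (by linarith)
      have d2 : 2 * Real.sin (s / 2) ^ 2 ≤ (θ0 - θ) * Real.sin θ0 := by
        have f1 : 2 * Real.sin (s / 2) ^ 2 = 1 - Real.cos s := by
          have : s = 2 * (s / 2) := by ring
          conv_rhs => rw [this, Real.cos_two_mul, Real.cos_sq']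
          ring
        have f2 : 1 - Real.cos s = Real.cos θ - Real.cos θ0 := by rw [hcosθ]; ring
        have f3 : Real.cos θ - Real.cos θ0 =
            2 * Real.sin ((θ0 - θ) / 2) * Real.sin ((θ0 + θ) / 2) := by
          rw [Real.cos_sub_cos]
          have : (θ - θ0) / 2 = -((θ0 - θ) / 2) := by ring
          rw [this, Real.sin_neg, add_comm θ θ0]
          ring
        have f4 : Real.sin ((θ0 - θ) / 2) ≤ (θ0 - θ) / 2 := Real.sin_le (by linarith)
        have f5 : Real.sin ((θ0 + θ) / 2) ≤ Real.sin θ0 :=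
          Real.sin_le_sin_of_le_of_le_pi_div_two (by linarith) (by linarith) (by linarith)
        have f6 : 0 ≤ Real.sin ((θ0 + θ) / 2) :=
          Real.sin_nonneg_of_nonneg_of_le_pi (by linarith) (by linarith)
        rw [f1, f2, f3]
        calc 2 * Real.sin ((θ0 - θ) / 2) * Real.sin ((θ0 + θ) / 2) ≤
            2 * ((θ0 - θ) / 2) * Real.sin ((θ0 + θ) / 2) := by gcongr
          _ ≤ 2 * ((θ0 - θ) / 2) * Real.sin θ0 := by
            apply mul_le_mul_of_nonneg_left f5
            linarith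
          _ = _ := by ring
      have d3 : Real.sin (θ / 2) ≤ Real.sin (θ0 / 2) :=
        Real.sin_le_sin_of_le_of_le_pi_div_two (by linarith) (by linarith) (by linarith)
      have d4 : Real.cos (θ0 / 2) ≤ Real.cos (θ / 2) :=
        Real.cos_le_cos_of_nonneg_of_le_pi (by linarith) (by linarith) (by linarith)
      have d5 : Real.sin θ0 = 2 * Real.sin (θ0 / 2) * Real.cos (θ0 / 2) := by
        rw [← Real.sin_two_mul]; ring_nf
      have d6 : 0 ≤ Real.sin (θ0 / 2) :=
        Real.sin_nonneg_of_nonneg_of_le_pi (by linarith) (by linarith)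
      have d7 : 0 ≤ Real.cos (θ0 / 2) := Real.cos_nonneg_of_mem_Icc ⟨by linarith, by linarith⟩
      have d8 : 2 * Real.sin (θ0 / 2) ^ 2 ≤ 244 / 1000 := by
        have g1 : Real.sin (θ0 / 2) ≤ θ0 / 2 := Real.sin_le (by linarith)
        have g2 : θ0 ≤ 6984 / 10000 := by
          rw [hθ0, div_le_iff₀ hhpos]
          have := Real.pi_lt_d4
          linarith
        have g3 : Real.sin (θ0 / 2) ≤ 3492 / 10000 := by linarith
        have g4 : Real.sin (θ0 / 2) ^ 2 ≤ (3492 / 10000) ^ 2 := pow_le_pow_left₀ d6 g3 2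
        norm_num at g4
        linarith
      have d9 : (98 / 100) * s ≤ Real.sin s := by
        have g1 := Real.sin_gt_sub_cube hs0
        have g2 : s ^ 3 ≤ (961 / 10000) * s := by
          have g3 : s ^ 2 ≤ (31 / 100) ^ 2 := pow_le_pow_left₀ hs0.le hs9 2
          have g4 := mul_le_mul_of_nonneg_right g3 hs0.le
          norm_num at g4
          calc s ^ 3 = s ^ 2 * s := by ring
            _ ≤ _ := g4
        linarith
      have d10 : 2 * Real.sin (θ0 / 2) ^ 2 * Real.sin (h * s) ≤ h * Real.sin s * Real.cos (h * s) := by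
        have g1 := sin_le_four hhs0.le hhs
        have g2 : 0 ≤ h * s * Real.cos (h * s) := by positivity
        calc 2 * Real.sin (θ0 / 2) ^ 2 * Real.sin (h * s) ≤ 244 / 1000 * Real.sin (h * s) := by gcongr
          _ ≤ 244 / 1000 * (4 * (h * s) * Real.cos (h * s)) := by gcongr
          _ ≤ (98 / 100) * (h * s * Real.cos (h * s)) := by linarith
          _ = h * ((98 / 100) * s) * Real.cos (h * s) := by ring
          _ ≤ h * Real.sin s * Real.cos (h * s) := by gcongr
      -- combine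
      have d11 : Real.sin s = 2 * Real.sin (s / 2) * Real.cos (s / 2) := by
        rw [← Real.sin_two_mul]; ring_nf
      have d12 : Real.sin (h * s) * Real.sin (s / 2) * Real.sin (θ / 2) * Real.sin θ0 ≤
          φ * Real.cos (h * s) * Real.cos (s / 2) * Real.cos (θ / 2) * Real.sin θ0 := by
        calc Real.sin (h * s) * Real.sin (s / 2) * Real.sin (θ / 2) * Real.sin θ0
            ≤ Real.sin (h * s) * Real.sin (s / 2) * Real.sin (θ0 / 2) * Real.sin θ0 := by gcongr
          _ = Real.sin (s / 2) * Real.cos (θ0 / 2) *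
              (2 * Real.sin (θ0 / 2) ^ 2 * Real.sin (h * s)) := by rw [d5]; ring
          _ ≤ Real.sin (s / 2) * Real.cos (θ0 / 2) * (h * Real.sin s * Real.cos (h * s)) := by
              gcongr
          _ = h * Real.cos (h * s) * Real.cos (s / 2) * Real.cos (θ0 / 2) *
              (2 * Real.sin (s / 2) ^ 2) := by rw [d11]; ring
          _ ≤ h * Real.cos (h * s) * Real.cos (s / 2) * Real.cos (θ / 2) *
              ((θ0 - θ) * Real.sin θ0) := by gcongr
          _ = _ := by rw [hφ]; ring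
      have d13 : Real.sin (h * s) * Real.sin (s / 2) * Real.sin (θ / 2) ≤
          φ * Real.cos (h * s) * Real.cos (s / 2) * Real.cos (θ / 2) :=
        le_of_mul_le_mul_right d12 hsinθ0
      have d14 : Real.cos φ * (Real.sin (h * s) * Real.sin (s / 2) * Real.sin (θ / 2)) ≤
          Real.cos φ * (φ * Real.cos (h * s) * Real.cos (s / 2) * Real.cos (θ / 2)) :=
        mul_le_mul_of_nonneg_left d13 c8
      have d15 : (φ * Real.cos φ) * (Real.cos (h * s) * Real.cos (s / 2) * Real.cos (θ / 2)) ≤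
          Real.sin φ * (Real.cos (h * s) * Real.cos (s / 2) * Real.cos (θ / 2)) :=
        mul_le_mul_of_nonneg_right d1 (by positivity)
      linarith
    · have c8 : Real.cos φ ≤ 0 :=
        Real.cos_nonpos_of_pi_div_two_le_of_le hφ2 (by linarith)
      have t1 : 0 ≤ Real.cos (h * s) * Real.cos (s / 2) * (Real.sin φ * Real.cos (θ / 2)) := by
        positivity
      have t2 : 0 ≤ Real.sin (h * s) * Real.sin (s / 2) * (-Real.cos φ * Real.sin (θ / 2)) := by
        have : 0 ≤ -Real.cos φ := by linarith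
        positivity
      linarith
  have hsign : 0 ≤ Real.sin (((m : ℝ) + 1) * θ) - α * Real.sin (m * θ) := by
    have h1 : (Real.sin (((m : ℝ) + 1) * θ) - α * Real.sin (m * θ)) * Real.cos (m * s) =
      Real.cos (m * s) * Real.sin (((m : ℝ) + 1) * θ) +
      Real.cos (((m : ℝ) + 1) * s) * Real.sin (m * θ) := by
      linear_combination (-Real.sin (m * θ)) * hαc
    rw [← h1] at hG
    exact nonneg_of_mul_nonneg_left hG hcms
  have hθm : θ0 < Real.pi / m := by
    rw [hθ0]
    apply div_lt_div_of_pos_left hpi (by linarith)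
    linarith
  have key := pside hb (by omega : 2 ≤ m) (α := α) (Or.inr (by omega)) (by omega) (θ := θ)
    (by linarith) hθpos (by linarith) hWpos hsign
  have hN : 1 ≤ 2 * m - 1 := by omega
  have hρ := bad_rho hN hb
  have eθ : 2 * Real.pi / (((2 * m - 1 : ℕ) : ℝ) + 2) = θ0 := by
    have e4 : ((2 * m - 1 : ℕ) : ℝ) = 2 * (m : ℝ) - 1 := by
      rw [Nat.cast_sub (by omega)]; push_cast; ring
    have e4' : 2 * (m : ℝ) - 1 + 2 = 2 * h := by rw [hh]; ring
    rw [e4, hθ0, e4', mul_div_mul_left _ _ (two_ne_zero)]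
  rw [eθ] at hρ
  have e5 : Real.sin (((m : ℝ) + 1) * s - δ) + α * Real.sin (m * s - δ) =
      (Real.sin (((m : ℝ) + 1) * s) + α * Real.sin (m * s)) * Real.cos δ := by
    rw [Real.sin_sub, Real.sin_sub]
    linear_combination (-Real.sin δ) * hαc
  rw [e5, hcosθ] at key
  set W := Real.sin (((m : ℝ) + 1) * s) + α * Real.sin (m * s) with hWdef
  have hd := hb.d_pos
  have hd2 := hb.d_le
  have hcd0 : 0 ≤ Real.cos δ := Real.cos_nonneg_of_mem_Icc ⟨by linarith, hd2⟩
  have hcd1 := Real.cos_le_one δ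
  have hr := hb.rho_pos
  have e6 : 2 * (Real.cos s + (1 + Real.cos θ0 - Real.cos s)) * ρ * (W * Real.cos δ) =
      (ρ * (2 * (1 + Real.cos θ0))) * (W * Real.cos δ) := by ring
  rw [e6] at key
  have e7 : 0 ≤ W * Real.cos δ := by positivity
  have e8 : W * Real.cos δ ≤ W := by nlinarith
  rcases e7.eq_or_lt with h9 | h9
  · rw [← h9, mul_zero] at key
    linarith
  · have : (ρ * (2 * (1 + Real.cos θ0))) * (W * Real.cos δ) < 1 * (W * Real.cos δ) :=
      mul_lt_mul_of_pos_right hρ h9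
    linarith

end Pool.Agent.Helper809.Koe
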