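import Mathlib
import Pool.Agent.Helper809.Koe.SLow

set_option autoImplicit false

open Polynomial Finset

namespace Pool.Agent.Helper809.Koe

/-- the primitive of the weight -/
noncomputable def Wf (B u t : ℝ) : ℝ :=
  B / 2 * (B / 2 * (t / 2 - Real.sin (2 * t) / 4) - u * (t + Real.sin t))

/-- The statement of the `G` side. -/
def GSide (b ρ δ s : ℝ) : Prop :=
  ∀ B t1 ta : ℝ, 0 < B → B ≤ 2 → 0 ≤ t1 → t1 ≤ ta → ta ≤ Real.pi →
    (ta = t1 ∨ B / 2 * (1 - Real.cos ta) ≤ 1 - Real.cos s) →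
    B / 2 + B / 2 * (1 - Real.cos t1) + ρ / Real.sin δ *
      (Wf B (B / 2 * (1 - Real.cos t1)) t1 + 2 * Wf B (B / 2 * (1 - Real.cos t1)) ta -
        (1 + δ / Real.pi) * Wf B (B / 2 * (1 - Real.cos t1)) Real.pi) ≤
      (2 - b - Real.cos δ / ρ) / 2

lemma g1 {b ρ δ s : ℝ} (hG : GSide b ρ δ s) (hρ : 0 < ρ) (hσ : 0 < Real.sin δ)
    (hle : Real.sin δ / ρ ≤ 2) :
    Real.cos δ + Real.sqrt 3 / 3 * Real.sin δ ≤ (2 - b) * ρ := by
  set q := Real.sqrt 3 with hq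
  have hq2 : q ^ 2 = 3 := Real.sq_sqrt (by norm_num)
  have hq0 : 0 < q := Real.sqrt_pos.mpr (by norm_num)
  have hq3 : q < 2 := by nlinarith
  set σ := Real.sin δ with hσd
  set x := σ / ρ with hx
  have hx0 : 0 < x := by positivity
  have hpi := Real.pi_pos
  have h := hG (4 * q / 9 * x) (Real.pi / 3) (Real.pi / 3) (by positivity) (by nlinarith)
    (by positivity) le_rfl (by linarith) (Or.inl rfl)
  have e1 : Real.sin (2 * (Real.pi / 3)) = q / 2 := by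
    rw [Real.sin_two_mul, Real.sin_pi_div_three, Real.cos_pi_div_three]
    ring
  have e2 : Real.sin (2 * Real.pi) = 0 := Real.sin_two_pi
  unfold Wf at h
  rw [e1, e2, Real.sin_pi_div_three, Real.cos_pi_div_three, Real.sin_pi] at h
  have e3 : ρ / σ = 1 / x := by rw [hx]; field_simp
  rw [e3, ← hq] at h
  have e4 : 4 * q / 9 * x / 2 + 4 * q / 9 * x / 2 * (1 - 1 / 2) +
      1 / x * (4 * q / 9 * x / 2 * (4 * q / 9 * x / 2 * (Real.pi / 3 / 2 - q / 2 / 4) -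
        4 * q / 9 * x / 2 * (1 - 1 / 2) * (Real.pi / 3 + q / 2)) +
        2 * (4 * q / 9 * x / 2 * (4 * q / 9 * x / 2 * (Real.pi / 3 / 2 - q / 2 / 4) -
        4 * q / 9 * x / 2 * (1 - 1 / 2) * (Real.pi / 3 + q / 2))) -
        (1 + δ / Real.pi) * (4 * q / 9 * x / 2 * (4 * q / 9 * x / 2 * (Real.pi / 2 - 0 / 4) -
        4 * q / 9 * x / 2 * (1 - 1 / 2) * (Real.pi + 0)))) =
      q / 6 * x := by
    have hxne : x ≠ 0 := hx0.ne'
    field_simp
    linear_combination (-1296 * Real.pi) * hq2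
  rw [e4] at h
  have h2 : q / 6 * x * (2 * ρ) ≤ (2 - b - Real.cos δ / ρ) / 2 * (2 * ρ) :=
    mul_le_mul_of_nonneg_right h (by positivity)
  have e5 : q / 6 * x * (2 * ρ) = q / 3 * σ := by rw [hx]; field_simp; ring
  have e6 : (2 - b - Real.cos δ / ρ) / 2 * (2 * ρ) = (2 - b) * ρ - Real.cos δ := by
    field_simp
  rw [e5, e6] at h2
  linarith

lemma g2 {b ρ δ s a : ℝ} (hG : GSide b ρ δ s) (ha0 : 0 < a) (ha1 : a ≤ 1)
    (ha : a ≤ 1 - Real.cos s) :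
    a - δ * ρ / (2 * Real.sin δ) * a ^ 2 ≤ (2 - b - Real.cos δ / ρ) / 2 := by
  have hpi := Real.pi_pos
  have h := hG (2 * a) 0 (Real.pi / 2) (by positivity) (by linarith) le_rfl (by positivity)
    (by linarith) (Or.inr (by rw [Real.cos_pi_div_two]; linarith))
  have e1 : Real.sin (2 * (Real.pi / 2)) = 0 := by
    rw [mul_div_cancel₀ _ (two_ne_zero)]; exact Real.sin_pi
  have e2 : Real.sin (2 * Real.pi) = 0 := Real.sin_two_pi
  unfold Wf at h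
  rw [e1, e2, Real.cos_zero, mul_zero, Real.sin_zero] at h
  refine le_trans (le_of_eq ?_) h
  rcases eq_or_ne (Real.sin δ) 0 with h0 | h0
  · rw [h0]; simp
  · field_simp
    ring

lemma cos_ge {b ρ δ r0 m0 : ℝ} (hρ0 : 0 < ρ) (hr : ρ * r0 < 1) (hr0 : 3 ≤ r0) (hm : m0 ≤ 1 / 8)
    (hm0 : 0 ≤ m0) (hb : 2 - b ≤ r0 + 2 * m0) (hδ0 : 0 < δ) (hδ : δ ≤ Real.pi / 2)
    (hBi : (b + Real.cos δ / ρ) ^ 2 + (Real.sin δ / ρ) ^ 2 ≤ 4) : 8253 / 10000 < Real.cos δ := by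
  by_contra hcon
  push Not at hcon
  have hc0 : 0 ≤ Real.cos δ := Real.cos_nonneg_of_mem_Icc ⟨by linarith [Real.pi_pos], hδ⟩
  have hsc := Real.sin_sq_add_cos_sq δ
  set c := Real.cos δ with hc
  set r := 1 / ρ with hr'
  have hrr : r0 < r := by
    rw [hr', lt_div_iff₀ hρ0]; linarith
  have e1 : c / ρ = c * r := by rw [hr']; ring
  have e2 : Real.sin δ / ρ = Real.sin δ * r := by rw [hr']; ring
  rw [e1, e2] at hBi
  have h1 : (b + c * r) ^ 2 + (1 - c ^ 2) * r ^ 2 ≤ 4 := by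
    have : (Real.sin δ * r) ^ 2 = (1 - c ^ 2) * r ^ 2 := by
      rw [mul_pow]; congr 1; linarith
    rw [← this]; exact hBi
  set β := r0 - 2 + 2 * m0 with hβ
  have hb' : -β ≤ b := by rw [hβ]; linarith
  rcases le_or_gt β (c * r) with h2 | h2
  · have h3 : (c * r - β) ^ 2 ≤ (b + c * r) ^ 2 := by
      apply pow_le_pow_left₀ (by linarith)
      linarith
    have h4 : (r - r0) * (r + r0 - 2 * c * β) ≥ 0 := by
      apply mul_nonneg (by linarith)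
      have : c * β ≤ 1 * β := mul_le_mul_of_nonneg_right (by linarith) (by rw [hβ]; linarith)
      have : β ≤ r0 := by rw [hβ]; linarith
      linarith
    have h5 : r0 ^ 2 - 2 * r0 * c * β + β ^ 2 ≤ 4 := by nlinarith
    have h6 : 2 * r0 * c * β ≤ 2 * r0 * (8253 / 10000) * β := by
      have : 0 ≤ β := by rw [hβ]; linarith
      have : 0 ≤ r0 * β := by positivity
      nlinarith
    have h7 : (r0 - β) ^ 2 + 2 * r0 * β * (1747 / 10000) ≤ 4 := by nlinarith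
    have h8 : r0 - β = 2 - 2 * m0 := by rw [hβ]; ring
    have h9 : 1 + 2 * m0 ≤ β := by rw [hβ]; linarith
    have h10 : 3 * (1 + 2 * m0) ≤ r0 * β := by
      apply mul_le_mul hr0 h9 (by linarith) (by linarith)
    rw [h8] at h7
    nlinarith
  · have hcr : 0 ≤ c * r := mul_nonneg hc0 (by linarith)
    have h3 : (c * r) ^ 2 ≤ β ^ 2 := pow_le_pow_left₀ hcr h2.le 2
    have h4 : r0 ^ 2 ≤ r ^ 2 := pow_le_pow_left₀ (by linarith) hrr.le 2
    have h5 : r0 ^ 2 - β ^ 2 ≤ 4 := by nlinarith [sq_nonneg (b + c * r)]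
    have h6 : r0 - β = 2 - 2 * m0 := by rw [hβ]; ring
    have h7 : (r0 - β) * (r0 + β) ≤ 4 := by nlinarith
    rw [h6] at h7
    have h8 : 4 ≤ r0 + β := by rw [hβ]; linarith
    nlinarith

lemma sin_iter {σ c K A e B : ℝ} (hc : σ ^ 2 + c ^ 2 = 1) (hc0 : 0 ≤ c) (hσ0 : 0 < σ)
    (h1 : 577 / 1000 * σ - (1 - c) < K) (hA : σ ≤ A) (hA1 : A ≤ 1) (he : A ≤ e * (2 - A ^ 2))
    (heB : K ≤ B * (577 / 1000 - e)) (he1 : e < 577 / 1000) : σ < B := by
  have hc1 : c ≤ 1 := by nlinarith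
  have h2 : 1 + c ^ 2 ≤ 1 + c := by nlinarith
  have hA2 : σ ^ 2 ≤ A ^ 2 := pow_le_pow_left₀ hσ0.le hA 2
  have h3 : 2 - A ^ 2 ≤ 1 + c := by linarith
  have hA0 : 0 < A := by linarith
  have hA3 : A ^ 2 ≤ 1 := by nlinarith
  have he0 : 0 < e := by
    by_contra h
    push Not at h
    nlinarith
  have h4 : (1 - c) * (1 + c) ≤ (e * σ) * (1 + c) := by
    have : (1 - c) * (1 + c) = σ ^ 2 := by linarith
    rw [this]
    calc σ ^ 2 = σ * σ := by ring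
      _ ≤ σ * A := by gcongr
      _ ≤ σ * (e * (2 - A ^ 2)) := by gcongr
      _ ≤ σ * (e * (1 + c)) := by gcongr
      _ = _ := by ring
  have h5 : 1 - c ≤ e * σ := le_of_mul_le_mul_right h4 (by linarith)
  have h6 : σ * (577 / 1000 - e) < B * (577 / 1000 - e) := by linarith
  exact lt_of_mul_lt_mul_right h6 (by linarith)

lemma one_sub_cos_le {σ c B E : ℝ} (hc : σ ^ 2 + c ^ 2 = 1) (hc0 : 0 ≤ c) (hσ0 : 0 < σ)
    (hB : σ ≤ B) (hB1 : B ≤ 1) (hE : B ^ 2 ≤ E * (2 - B ^ 2)) : 1 - c ≤ E := by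
  have hc1 : c ≤ 1 := by nlinarith
  have h2 : 1 + c ^ 2 ≤ 1 + c := by nlinarith
  have hA2 : σ ^ 2 ≤ B ^ 2 := pow_le_pow_left₀ hσ0.le hB 2
  have h3 : 2 - B ^ 2 ≤ 1 + c := by linarith
  have hB0 : 0 < B := by linarith
  have hB3 : B ^ 2 ≤ 1 := by nlinarith
  have hE0 : 0 ≤ E := by
    by_contra h
    push Not at h
    have h1 : 0 < B ^ 2 := by positivity
    have h2 : E * (2 - B ^ 2) ≤ 0 := mul_nonpos_of_nonpos_of_nonneg h.le (by linarith)
    linarith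
  have h4 : (1 - c) * (1 + c) ≤ E * (1 + c) := by
    have : (1 - c) * (1 + c) = σ ^ 2 := by linarith
    rw [this]
    calc σ ^ 2 ≤ B ^ 2 := hA2
      _ ≤ E * (2 - B ^ 2) := hE
      _ ≤ E * (1 + c) := by gcongr
  exact le_of_mul_le_mul_right h4 (by linarith)

/-- first consequences: `sin δ ≤ .565` and the `K` inequality. -/
lemma start {b ρ δ s r0 m0 : ℝ} (hG : GSide b ρ δ s) (hρ0 : 0 < ρ) (hr : ρ * r0 < 1)
    (hr0 : 3 ≤ r0) (hm : m0 ≤ 1 / 8) (hm0 : 0 ≤ m0) (hb : 2 - b ≤ r0 + 2 * m0) (hδ0 : 0 < δ)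
    (hδ : δ ≤ Real.pi / 2) (hBi : (b + Real.cos δ / ρ) ^ 2 + (Real.sin δ / ρ) ^ 2 ≤ 4) :
    Real.sin δ ≤ 565 / 1000 ∧ 577 / 1000 * Real.sin δ - (1 - Real.cos δ) < 2 * m0 / r0 := by
  have hc := cos_ge hρ0 hr hr0 hm hm0 hb hδ0 hδ hBi
  have hsc := Real.sin_sq_add_cos_sq δ
  have hσ : 0 < Real.sin δ := Real.sin_pos_of_pos_of_lt_pi hδ0 (by linarith [Real.pi_pos])
  have hle : Real.sin δ / ρ ≤ 2 := by
    have h1 : (Real.sin δ / ρ) ^ 2 ≤ 2 ^ 2 := by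
      nlinarith [sq_nonneg (b + Real.cos δ / ρ)]
    exact le_of_sq_le_sq h1 (by norm_num)
  constructor
  · have h1 : Real.sin δ ^ 2 ≤ (565 / 1000) ^ 2 := by nlinarith
    exact le_of_sq_le_sq h1 (by norm_num)
  · have h1 := g1 hG hρ0 hσ hle
    have h2 : (2 - b) * ρ ≤ (r0 + 2 * m0) * ρ := mul_le_mul_of_nonneg_right hb hρ0.le
    have hr0' : 0 < r0 := by linarith
    have h3 : (r0 + 2 * m0) * ρ < 1 + 2 * m0 / r0 := by
      have : (r0 + 2 * m0) * ρ = (ρ * r0) * (1 + 2 * m0 / r0) := by field_simp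
      rw [this]
      have h4 : 0 < 1 + 2 * m0 / r0 := by positivity
      nlinarith
    have h5 : (577 / 1000 : ℝ) ≤ Real.sqrt 3 / 3 := by
      have : (1731 / 1000 : ℝ) ≤ Real.sqrt 3 := Real.le_sqrt_of_sq_le (by norm_num)
      linarith
    nlinarith

lemma fin {b ρ δ s r0 m0 a E κ : ℝ} (hG : GSide b ρ δ s) (hρ0 : 0 < ρ) (hr : ρ * r0 < 1)
    (hr0 : 3 ≤ r0) (hb : 2 - b ≤ r0 + 2 * m0) (hδ0 : 0 < δ)
    (hδ : δ ≤ Real.pi / 2) (hE : 1 - Real.cos δ ≤ E) (hE1 : E < 1) (ha0 : 0 < a) (ha1 : a ≤ 1)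
    (ha : a ≤ 1 - Real.cos s) (hκ : 1 ≤ κ * (2 * r0 * (1 - E)))
    (hnum : m0 + r0 / 2 * E < a - κ * a ^ 2) : False := by
  have hσ : 0 < Real.sin δ := Real.sin_pos_of_pos_of_lt_pi hδ0 (by linarith [Real.pi_pos])
  have hc : 0 < Real.cos δ := by linarith
  have hδ' : δ < Real.pi / 2 := by
    rcases hδ.lt_or_eq with h | h
    · exact h
    · rw [h, Real.cos_pi_div_two] at hc; exact absurd hc (lt_irrefl 0)
  have h := g2 hG ha0 ha1 ha
  have h1 : δ * Real.cos δ ≤ Real.sin δ := mul_cos_le_sin hδ0.le hδ'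
  have h2 : δ * ρ / (2 * Real.sin δ) ≤ κ := by
    rw [div_le_iff₀ (by positivity)]
    have h3 : δ * (1 - E) ≤ Real.sin δ := by
      have : δ * (1 - E) ≤ δ * Real.cos δ := mul_le_mul_of_nonneg_left (by linarith) hδ0.le
      linarith
    have hE2 : 0 < 1 - E := by linarith
    have hκ0 : 0 < κ := by
      by_contra h
      push Not at h
      have : 0 < 2 * r0 * (1 - E) := by positivity
      nlinarith
    -- δ ρ ≤ κ · 2 σ : δ ρ · (r0 (1-E)) ≤ σ ≤ κ 2 σ r0 (1-E)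
    have h4 : (δ * ρ) * (r0 * (1 - E)) ≤ (κ * (2 * Real.sin δ)) * (r0 * (1 - E)) := by
      calc (δ * ρ) * (r0 * (1 - E)) = (ρ * r0) * (δ * (1 - E)) := by ring
        _ ≤ 1 * (δ * (1 - E)) := by
            apply mul_le_mul_of_nonneg_right hr.le (by positivity)
        _ ≤ Real.sin δ := by linarith
        _ = 1 * Real.sin δ := by ring
        _ ≤ (κ * (2 * r0 * (1 - E))) * Real.sin δ := mul_le_mul_of_nonneg_right hκ hσ.le
        _ = _ := by ring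
    exact le_of_mul_le_mul_right h4 (by positivity)
  have h3 : δ * ρ / (2 * Real.sin δ) * a ^ 2 ≤ κ * a ^ 2 :=
    mul_le_mul_of_nonneg_right h2 (sq_nonneg a)
  have h4 : r0 * Real.cos δ ≤ Real.cos δ / ρ := by
    rw [le_div_iff₀ hρ0]
    nlinarith
  have h5 : r0 / 2 * (1 - Real.cos δ) ≤ r0 / 2 * E := mul_le_mul_of_nonneg_left hE (by linarith)
  linarith

end Pool.Agent.Helper809.Koe
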