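import Mathlib
import Pool.Agent.Helper809.Koe.Asm

set_option autoImplicit false

open Polynomial Finset

namespace Pool.Agent.Helper809.Koe

open Pool.Agent.Helper766 Pool.Agent.Helper766.G Pool.Agent.Results.MP_6cc408_an.RealAxisSharp

lemma cos_le_poly {x : ℝ} (h0 : 0 ≤ x) (h1 : x ≤ 1) : Real.cos x ≤ 1 - x ^ 2 / 2 + x ^ 4 * (5 / 96) := by
  have h := Real.cos_bound (x := x) (by rw [abs_of_nonneg h0]; exact h1)
  rw [abs_of_nonneg h0] at h
  have := (abs_le.mp h).2
  linarith

lemma cos_sub_cos_le {x y : ℝ} (h0 : 0 ≤ x) (h1 : x ≤ y) (h2 : y ≤ Real.pi) :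
    Real.cos x - Real.cos y ≤ (y ^ 2 - x ^ 2) / 2 := by
  rw [Real.cos_sub_cos]
  have e : (x - y) / 2 = -((y - x) / 2) := by ring
  rw [e, Real.sin_neg]
  have h3 : Real.sin ((y - x) / 2) ≤ (y - x) / 2 := Real.sin_le (by linarith)
  have h4 : Real.sin ((x + y) / 2) ≤ (x + y) / 2 := Real.sin_le (by linarith)
  have h5 : 0 ≤ Real.sin ((x + y) / 2) := Real.sin_nonneg_of_nonneg_of_le_pi (by linarith) (by linarith)
  have h6 : Real.sin ((x + y) / 2) * Real.sin ((y - x) / 2) ≤ ((x + y) / 2) * ((y - x) / 2) := by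
    calc Real.sin ((x + y) / 2) * Real.sin ((y - x) / 2) ≤ Real.sin ((x + y) / 2) * ((y - x) / 2) := by
          gcongr
      _ ≤ _ := by
          apply mul_le_mul_of_nonneg_right h4
          linarith
  nlinarith

lemma cos_29 : (766 : ℝ) / 1000 < Real.cos (2 * Real.pi / 9) ∧ Real.cos (2 * Real.pi / 9) < 7661 / 10000 := by
  have h3 := Real.cos_three_mul (2 * Real.pi / 9)
  have e : 3 * (2 * Real.pi / 9) = Real.pi - Real.pi / 3 := by ring
  rw [e, Real.cos_pi_sub, Real.cos_pi_div_three] at h3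
  have h5 : 1 / 2 < Real.cos (2 * Real.pi / 9) := by
    rw [← Real.cos_pi_div_three]
    apply Real.cos_lt_cos_of_nonneg_of_le_pi (by positivity) (by linarith [Real.pi_pos])
    linarith [Real.pi_pos]
  set c := Real.cos (2 * Real.pi / 9) with hc
  constructor
  · by_contra h
    push Not at h
    have : (766 / 1000 - c) * (4 * (c ^ 2 + c * (766 / 1000) + (766 / 1000) ^ 2) - 3) ≥ 0 := by
      apply mul_nonneg (by linarith)
      nlinarith
    nlinarith
  · by_contra h
    push Not at h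
    have : (c - 7661 / 10000) * (4 * (c ^ 2 + c * (7661 / 10000) + (7661 / 10000) ^ 2) - 3) ≥ 0 := by
      apply mul_nonneg (by linarith)
      nlinarith
    nlinarith

lemma cos_27 : Real.cos (2 * Real.pi / 7) ≤ 6243 / 10000 := by
  have hp := Real.pi_gt_d4
  have hp2 := Real.pi_lt_d4
  have h1 : Real.cos (Real.pi / 14) ≤ 97498 / 100000 := by
    have h2 : (2243 : ℝ) / 10000 ≤ Real.pi / 14 := by linarith
    have h3 : Real.cos (Real.pi / 14) ≤ Real.cos (2243 / 10000) :=
      Real.cos_le_cos_of_nonneg_of_le_pi (by norm_num) (by linarith) h2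
    have h4 := cos_le_poly (x := 2243 / 10000) (by norm_num) (by norm_num)
    norm_num at h4
    linarith
  have h1' : 0 ≤ Real.cos (Real.pi / 14) :=
    Real.cos_nonneg_of_mem_Icc ⟨by linarith, by linarith⟩
  have h5 : Real.cos (Real.pi / 7) ≤ 901173 / 1000000 := by
    have e : Real.pi / 7 = 2 * (Real.pi / 14) := by ring
    rw [e, Real.cos_two_mul]
    have : Real.cos (Real.pi / 14) ^ 2 ≤ (97498 / 100000) ^ 2 := pow_le_pow_left₀ h1' h1 2
    norm_num at this
    linarith
  have h5' : 0 ≤ Real.cos (Real.pi / 7) :=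
    Real.cos_nonneg_of_mem_Icc ⟨by linarith, by linarith⟩
  have e : 2 * Real.pi / 7 = 2 * (Real.pi / 7) := by ring
  rw [e, Real.cos_two_mul]
  have : Real.cos (Real.pi / 7) ^ 2 ≤ (901173 / 1000000) ^ 2 := pow_le_pow_left₀ h5' h5 2
  norm_num at this
  linarith

/-- the Bieberbach input -/
def BSide (b ρ δ : ℝ) : Prop := (b + Real.cos δ / ρ) ^ 2 + (Real.sin δ / ρ) ^ 2 ≤ 4

section

variable {p : ℝ[X]} {ρ δ s : ℝ}

/-- `N = 6` -/
theorem case6 (hb : Bad 6 p ρ δ s) (hG : GSide (p.coeff 2) ρ δ s)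
    (hB : BSide (p.coeff 2) ρ δ) : False := by
  have hs := s_even (m := 3) (by norm_num) hb
  have hρ := bad_rho (by norm_num) hb
  have hb2 := bad_b2 (by norm_num) hb
  have hc9 := cos_29
  push_cast at hs hρ hb2
  have e1 : 2 * Real.pi / ((6 : ℝ) + 2) = Real.pi / 4 := by ring
  have e2 : 2 * Real.pi / ((6 : ℝ) + 3) = 2 * Real.pi / 9 := by ring
  rw [e1, Real.cos_pi_div_four] at hρ
  rw [e2] at hb2
  set q := Real.sqrt 2 with hq
  have hq2 : q ^ 2 = 2 := Real.sq_sqrt (by norm_num)
  have hq1 : 14142 / 10000 < q := Real.lt_sqrt_of_sq_lt (by norm_num)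
  have hq3 : q < 14143 / 10000 := (Real.sqrt_lt' (by norm_num)).mpr (by norm_num)
  have hsc := Real.sin_sq_add_cos_sq δ
  have hσ : 0 < Real.sin δ := Real.sin_pos_of_pos_of_lt_pi hb.d_pos (by linarith [Real.pi_pos, hb.d_le])
  have hc0 : 0 ≤ Real.cos δ := Real.cos_nonneg_of_mem_Icc ⟨by linarith [Real.pi_pos, hb.d_pos], hb.d_le⟩
  have hr : ρ * (2 + q) < 1 := by linarith
  have hbm : 2 - p.coeff 2 ≤ (2 + q) + 2 * (6 / 100) := by linarith
  obtain ⟨h1, h2⟩ := start hG hb.rho_pos hr (by linarith) (m0 := 6 / 100) (by norm_num)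
    (by norm_num) hbm hb.d_pos hb.d_le hB
  have h2' : 577 / 1000 * Real.sin δ - (1 - Real.cos δ) < 352 / 10000 := by
    refine lt_of_lt_of_le h2 ?_
    rw [div_le_iff₀ (by linarith)]
    linarith
  have h3 := sin_iter hsc hc0 hσ h2' h1 (e := 337 / 1000) (B := 1467 / 10000) (by norm_num)
    (by norm_num) (by norm_num) (by norm_num)
  have h4 := sin_iter hsc hc0 hσ h2' h3.le (e := 75 / 1000) (B := 702 / 10000) (by norm_num)
    (by norm_num) (by norm_num) (by norm_num)
  have h5 := one_sub_cos_le hsc hc0 hσ h4.le (E := 25 / 10000) (by norm_num) (by norm_num)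
  have h6 : (75 : ℝ) / 1000 ≤ 1 - Real.cos s := by
    have e3 : Real.pi / (2 * 3 + 2) = Real.pi / 8 := by ring
    rw [e3] at hs
    have hp := Real.pi_gt_d4
    have h7 : Real.cos s ≤ Real.cos (392 / 1000) := by
      apply Real.cos_le_cos_of_nonneg_of_le_pi (by norm_num) hb.s_lt.le (by linarith)
    have h8 := cos_le_poly (x := 392 / 1000) (by norm_num) (by norm_num)
    norm_num at h8
    linarith
  exact fin hG hb.rho_pos hr (by linarith) hbm hb.d_pos hb.d_le h5 (by norm_num)
    (a := 75 / 1000) (by norm_num) (by norm_num) h6 (κ := 15 / 100) (by linarith) (by linarith)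

/-- `N = 7` -/
theorem case7 (hb : Bad 7 p ρ δ s) (hG : GSide (p.coeff 2) ρ δ s)
    (hB : BSide (p.coeff 2) ρ δ) : False := by
  have hs := s_odd (m := 4) (by norm_num) hb
  have hρ := bad_rho (by norm_num) hb
  have hb2 := bad_b2 (by norm_num) hb
  obtain ⟨hc9, hc9'⟩ := cos_29
  push_cast at hs hρ hb2
  have e1 : 2 * Real.pi / ((7 : ℝ) + 2) = 2 * Real.pi / 9 := by ring
  have e2 : 2 * Real.pi / ((7 : ℝ) + 3) = Real.pi / 5 := by ring
  rw [e1] at hρ
  rw [e2, Real.cos_pi_div_five] at hb2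
  set q := Real.sqrt 5 with hq
  have hq3 : q < 22361 / 10000 := (Real.sqrt_lt' (by norm_num)).mpr (by norm_num)
  set c := Real.cos (2 * Real.pi / 9) with hc
  have hsc := Real.sin_sq_add_cos_sq δ
  have hσ : 0 < Real.sin δ := Real.sin_pos_of_pos_of_lt_pi hb.d_pos (by linarith [Real.pi_pos, hb.d_le])
  have hc0 : 0 ≤ Real.cos δ := Real.cos_nonneg_of_mem_Icc ⟨by linarith [Real.pi_pos, hb.d_pos], hb.d_le⟩
  have hr : ρ * (3532 / 1000) < 1 := by
    have := mul_lt_mul_of_pos_left hc9 hb.rho_pos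
    linarith
  have hbm : 2 - p.coeff 2 ≤ 3532 / 1000 + 2 * (431 / 10000) := by linarith
  obtain ⟨h1, h2⟩ := start hG hb.rho_pos hr (by norm_num) (m0 := 431 / 10000) (by norm_num)
    (by norm_num) hbm hb.d_pos hb.d_le hB
  have h2' : 577 / 1000 * Real.sin δ - (1 - Real.cos δ) < 2441 / 100000 := by
    refine lt_of_lt_of_le h2 ?_
    norm_num
  have h3 := sin_iter hsc hc0 hσ h2' h1 (e := 337 / 1000) (B := 1018 / 10000) (by norm_num)
    (by norm_num) (by norm_num) (by norm_num)
  have h4 := sin_iter hsc hc0 hσ h2' h3.le (e := 52 / 1000) (B := 466 / 10000) (by norm_num)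
    (by norm_num) (by norm_num) (by norm_num)
  have h5 := one_sub_cos_le hsc hc0 hσ h4.le (E := 1087 / 1000000) (by norm_num) (by norm_num)
  have h6 : (462 : ℝ) / 10000 ≤ 1 - Real.cos s := by
    norm_num at hs
    have h7 : Real.cos s ≤ Real.cos (3055 / 10000) := by
      apply Real.cos_le_cos_of_nonneg_of_le_pi (by norm_num) hb.s_lt.le (by linarith)
    have h8 := cos_le_poly (x := 3055 / 10000) (by norm_num) (by norm_num)
    norm_num at h8
    linarith
  exact fin hG hb.rho_pos hr (by norm_num) hbm hb.d_pos hb.d_le h5 (by norm_num)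
    (a := 462 / 10000) (by norm_num) (by norm_num) h6 (κ := 143 / 1000) (by norm_num) (by norm_num)

/-- `N = 8` -/
theorem case8 (hb : Bad 8 p ρ δ s) (hG : GSide (p.coeff 2) ρ δ s)
    (hB : BSide (p.coeff 2) ρ δ) : False := by
  have hs := s_even (m := 4) (by norm_num) hb
  have hρ := bad_rho (by norm_num) hb
  have hb2 := bad_b2 (by norm_num) hb
  push_cast at hs hρ hb2
  have e1 : 2 * Real.pi / ((8 : ℝ) + 2) = Real.pi / 5 := by ring
  have e2 : 2 * Real.pi / ((8 : ℝ) + 3) = 2 * Real.pi / 11 := by ring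
  have hm := cos_sub_cos_le (x := 2 * Real.pi / 11) (y := Real.pi / 5) (by positivity)
    (by linarith [Real.pi_pos]) (by linarith [Real.pi_pos])
  rw [e1] at hρ
  rw [e2] at hb2
  rw [Real.cos_pi_div_five] at hm hρ
  set q := Real.sqrt 5 with hq
  have hq1 : 22360 / 10000 < q := Real.lt_sqrt_of_sq_lt (by norm_num)
  have hq3 : q < 22361 / 10000 := (Real.sqrt_lt' (by norm_num)).mpr (by norm_num)
  have hpi2 : Real.pi ^ 2 < 987 / 100 := by
    have h1 := Real.pi_lt_d4
    have h2 := Real.pi_pos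
    nlinarith
  have hm' : Real.cos (2 * Real.pi / 11) - (1 + q) / 4 ≤ 343 / 10000 := by
    refine hm.trans ?_
    have : ((Real.pi / 5) ^ 2 - (2 * Real.pi / 11) ^ 2) / 2 = Real.pi ^ 2 * (21 / 6050) := by ring
    rw [this]
    linarith
  have hsc := Real.sin_sq_add_cos_sq δ
  have hσ : 0 < Real.sin δ := Real.sin_pos_of_pos_of_lt_pi hb.d_pos (by linarith [Real.pi_pos, hb.d_le])
  have hc0 : 0 ≤ Real.cos δ := Real.cos_nonneg_of_mem_Icc ⟨by linarith [Real.pi_pos, hb.d_pos], hb.d_le⟩
  have hr : ρ * (5 / 2 + q / 2) < 1 := by linarith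
  have hbm : 2 - p.coeff 2 ≤ (5 / 2 + q / 2) + 2 * (343 / 10000) := by linarith
  obtain ⟨h1, h2⟩ := start hG hb.rho_pos hr (by linarith) (m0 := 343 / 10000) (by norm_num)
    (by norm_num) hbm hb.d_pos hb.d_le hB
  have h2' : 577 / 1000 * Real.sin δ - (1 - Real.cos δ) < 2 / 100 := by
    refine lt_of_lt_of_le h2 ?_
    rw [div_le_iff₀ (by linarith)]
    linarith
  have h3 := sin_iter hsc hc0 hσ h2' h1 (e := 337 / 1000) (B := 834 / 10000) (by norm_num)
    (by norm_num) (by norm_num) (by norm_num)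
  have h5 := one_sub_cos_le hsc hc0 hσ h3.le (E := 35 / 10000) (by norm_num) (by norm_num)
  have h6 : (48 : ℝ) / 1000 ≤ 1 - Real.cos s := by
    have e3 : Real.pi / (2 * 4 + 2) = Real.pi / 10 := by ring
    rw [e3] at hs
    have hp := Real.pi_gt_d4
    have h7 : Real.cos s ≤ Real.cos (314 / 1000) := by
      apply Real.cos_le_cos_of_nonneg_of_le_pi (by norm_num) hb.s_lt.le (by linarith)
    have h8 := cos_le_poly (x := 314 / 1000) (by norm_num) (by norm_num)
    norm_num at h8
    linarith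
  exact fin hG hb.rho_pos hr (by linarith) hbm hb.d_pos hb.d_le h5 (by norm_num)
    (a := 48 / 1000) (by norm_num) (by norm_num) h6 (κ := 15 / 100) (by linarith) (by linarith)

/-- the large degrees, given the bound on `s`. -/
theorem case_big {N : ℕ} (hN : 9 ≤ N) (hb : Bad N p ρ δ s) (hG : GSide (p.coeff 2) ρ δ s)
    (hB : BSide (p.coeff 2) ρ δ) (hs : 275 / 100 / ((N : ℝ) + 2) < s) : False := by
  have hρ := bad_rho (by omega) hb
  have hb2 := bad_b2 (by omega) hb
  have hNR : (9 : ℝ) ≤ N := by exact_mod_cast hN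
  set M : ℝ := (N : ℝ) + 2 with hM
  have hM11 : 11 ≤ M := by rw [hM]; linarith
  have hM0 : 0 < M := by linarith
  have e1 : (N : ℝ) + 3 = M + 1 := by rw [hM]; ring
  rw [e1] at hb2
  have hpi := Real.pi_pos
  have hpi4 := Real.pi_lt_d4
  have hpi2 : Real.pi ^ 2 < 987 / 100 := by nlinarith
  have hle : 2 * Real.pi / (M + 1) ≤ 2 * Real.pi / M :=
    div_le_div_of_nonneg_left (by positivity) hM0 (by linarith)
  have hle2 : 2 * Real.pi / M ≤ 1 := by
    rw [div_le_iff₀ hM0]; linarith
  have hm := cos_sub_cos_le (x := 2 * Real.pi / (M + 1)) (y := 2 * Real.pi / M) (by positivity)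
    hle (by linarith [Real.pi_gt_three])
  set t : ℝ := 1 / M ^ 2 with ht
  have ht0 : 0 < t := by positivity
  have htM : t * M ^ 2 = 1 := by rw [ht]; field_simp
  have ht1 : t ≤ 1 / 121 := by
    rw [ht]
    apply div_le_div_of_nonneg_left (by norm_num) (by norm_num)
    nlinarith
  have hm' : Real.cos (2 * Real.pi / (M + 1)) - Real.cos (2 * Real.pi / M) ≤ 3153 / 1000 * t := by
    refine hm.trans ?_
    have e2 : ((2 * Real.pi / M) ^ 2 - (2 * Real.pi / (M + 1)) ^ 2) / 2 =
        2 * Real.pi ^ 2 * ((2 * M + 1) / (M + 1) ^ 2) * t := by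
      rw [ht]; field_simp; ring
    rw [e2]
    have h1 : (2 * M + 1) / (M + 1) ^ 2 ≤ 23 / 144 := by
      rw [div_le_div_iff₀ (by positivity) (by norm_num)]
      nlinarith
    have h2 : 2 * Real.pi ^ 2 * ((2 * M + 1) / (M + 1) ^ 2) ≤ 3153 / 1000 := by
      calc 2 * Real.pi ^ 2 * ((2 * M + 1) / (M + 1) ^ 2) ≤ 2 * Real.pi ^ 2 * (23 / 144) := by gcongr
        _ ≤ _ := by linarith
    exact mul_le_mul_of_nonneg_right h2 ht0.le
  set C := Real.cos (2 * Real.pi / M) with hC
  have hC1 : C ≤ 1 := Real.cos_le_one _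
  have hC2 : 1 - 2 * Real.pi ^ 2 * t ≤ C := by
    have := Real.one_sub_sq_div_two_le_cos (x := 2 * Real.pi / M)
    have e3 : (2 * Real.pi / M) ^ 2 / 2 = 2 * Real.pi ^ 2 * t := by rw [ht]; field_simp
    rw [e3] at this
    exact this
  have hC3 : 835 / 1000 ≤ C := by
    have : 2 * Real.pi ^ 2 * t ≤ 2 * (987 / 100) * (1 / 121) := by gcongr
    linarith
  have hsc := Real.sin_sq_add_cos_sq δ
  have hσ : 0 < Real.sin δ := Real.sin_pos_of_pos_of_lt_pi hb.d_pos (by linarith [Real.pi_pos, hb.d_le])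
  have hc0 : 0 ≤ Real.cos δ := Real.cos_nonneg_of_mem_Icc ⟨by linarith [Real.pi_pos, hb.d_pos], hb.d_le⟩
  have hr : ρ * (2 + 2 * C) < 1 := by linarith
  have hbm : 2 - p.coeff 2 ≤ (2 + 2 * C) + 2 * (3153 / 1000 * t) := by linarith
  obtain ⟨h1, h2⟩ := start hG hb.rho_pos hr (by linarith) (m0 := 3153 / 1000 * t) (by linarith)
    (by positivity) hbm hb.d_pos hb.d_le hB
  have h2' : 577 / 1000 * Real.sin δ - (1 - Real.cos δ) < 172 / 100 * t := by
    refine lt_of_lt_of_le h2 ?_
    rw [div_le_iff₀ (by linarith)]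
    have : t * (835 / 1000) ≤ t * C := mul_le_mul_of_nonneg_left hC3 ht0.le
    nlinarith
  have h3 := sin_iter hsc hc0 hσ h2' h1 (e := 337 / 1000) (B := 717 / 100 * t) (by norm_num)
    (by norm_num) (by linarith) (by norm_num)
  have hB2 : (717 / 100 * t) ^ 2 ≤ 425 / 1000 * t := by
    have : (717 / 100 * t) ^ 2 = 514089 / 10000 * (t * t) := by ring
    rw [this]
    have h4 : t * t ≤ t * (1 / 121) := mul_le_mul_of_nonneg_left ht1 ht0.le
    linarith
  have h5 := one_sub_cos_le hsc hc0 hσ h3.le (E := 214 / 1000 * t) (by linarith) (by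
    have h6 : (717 / 100 * t) ^ 2 ≤ 4 / 1000 := by linarith
    have h7 : 214 / 1000 * t * (2 - 4 / 1000) ≤ 214 / 1000 * t * (2 - (717 / 100 * t) ^ 2) := by
      apply mul_le_mul_of_nonneg_left (by linarith) (by positivity)
    linarith)
  have h6 : 3756 / 1000 * t ≤ 1 - Real.cos s := by
    have h7 : Real.cos s ≤ Real.cos (275 / 100 / M) := by
      apply Real.cos_le_cos_of_nonneg_of_le_pi (by positivity) hb.s_lt.le hs.le
    have h8 := cos_le_poly (x := 275 / 100 / M) (by positivity) (by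
      rw [div_le_iff₀ hM0]; linarith)
    have e4 : (275 / 100 / M) ^ 2 / 2 = 378125 / 100000 * t := by rw [ht]; field_simp; norm_num
    have e5 : (275 / 100 / M) ^ 4 * (5 / 96) = (275 / 100) ^ 4 * (5 / 96) * (t * t) := by
      rw [ht]; field_simp
    rw [e4, e5] at h8
    have h9 : t * t ≤ t * (1 / 121) := mul_le_mul_of_nonneg_left ht1 ht0.le
    have h10 : (275 / 100 : ℝ) ^ 4 * (5 / 96) * (t * t) ≤ 2979 / 1000 * (t * (1 / 121)) := by
      have : (275 / 100 : ℝ) ^ 4 * (5 / 96) ≤ 2979 / 1000 := by norm_num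
      have h11 : 0 ≤ t * t := by positivity
      calc (275 / 100 : ℝ) ^ 4 * (5 / 96) * (t * t) ≤ 2979 / 1000 * (t * t) := by gcongr
        _ ≤ _ := by gcongr
    linarith
  refine fin hG hb.rho_pos hr (by linarith) hbm hb.d_pos hb.d_le h5 (by linarith)
    (a := 3756 / 1000 * t) (by positivity) (by linarith) h6 (κ := 15 / 100) ?_ ?_
  · have h7 : (2 * (2 + 2 * (835 / 1000)) : ℝ) ≤ 2 * (2 + 2 * C) := by linarith
    have h8 : (99 / 100 : ℝ) ≤ 1 - 214 / 1000 * t := by linarith
    have h9 : (2 * (2 + 2 * (835 / 1000)) : ℝ) * (99 / 100) ≤ 2 * (2 + 2 * C) * (1 - 214 / 1000 * t) :=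
      mul_le_mul h7 h8 (by norm_num) (by linarith)
    linarith
  · have h7 : (2 + 2 * C) / 2 * (214 / 1000 * t) ≤ 2 * (214 / 1000 * t) := by
      apply mul_le_mul_of_nonneg_right _ (by positivity)
      linarith
    have h8 : (3756 / 1000 * t) ^ 2 ≤ 117 / 1000 * t := by
      have : (3756 / 1000 * t) ^ 2 = 14107536 / 1000000 * (t * t) := by ring
      rw [this]
      have h4 : t * t ≤ t * (1 / 121) := mul_le_mul_of_nonneg_left ht1 ht0.le
      linarith
    linarith

/-- all degrees `≥ 6` -/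
theorem case_ge6 {N : ℕ} (hN : 6 ≤ N) (hb : Bad N p ρ δ s) (hG : GSide (p.coeff 2) ρ δ s)
    (hB : BSide (p.coeff 2) ρ δ) : False := by
  rcases Nat.lt_or_ge N 9 with h | h
  · interval_cases N
    · exact case6 hb hG hB
    · exact case7 hb hG hB
    · exact case8 hb hG hB
  · apply case_big h hb hG hB
    rcases Nat.even_or_odd' N with ⟨m, hm | hm⟩
    · subst hm
      have h1 := s_even (m := m) (by omega) hb
      refine lt_of_le_of_lt ?_ h1
      push_cast
      have hm0 : (0 : ℝ) < 2 * (m : ℝ) + 2 := by positivity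
      apply div_le_div_of_nonneg_right _ hm0.le
      linarith [Real.pi_gt_three]
    · have h2 : N = 2 * (m + 1) - 1 := by omega
      subst h2
      have h1 := s_odd (m := m + 1) (by omega) hb
      refine lt_of_le_of_lt (le_of_eq ?_) h1
      rw [Nat.cast_sub (by omega)]
      push_cast
      ring

/-- `N = 4` -/
theorem case4 (hb : Bad 4 p ρ δ s) (hG : GSide (p.coeff 2) ρ δ s)
    (hB : BSide (p.coeff 2) ρ δ) : False := by
  have hs := s_even (m := 2) (by norm_num) hb
  have hρ := bad_rho (by norm_num) hb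
  have hb2 := bad_b2 (by norm_num) hb
  have hc7 := cos_27
  push_cast at hs hρ hb2
  have e1 : 2 * Real.pi / ((4 : ℝ) + 2) = Real.pi / 3 := by ring
  have e2 : 2 * Real.pi / ((4 : ℝ) + 3) = 2 * Real.pi / 7 := by ring
  rw [e1, Real.cos_pi_div_three] at hρ
  rw [e2] at hb2
  have hp := Real.pi_gt_d4
  have hp2 := Real.pi_lt_d4
  have hr : ρ * 3 < 1 := by linarith
  have hρ0 := hb.rho_pos
  have hs56 : 56 / 100 < s := by
    by_contra hcon
    push Not at hcon
    have hs0 := hb.s_pos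
    have e3 : Real.pi / (2 * 2 + 2) = Real.pi / 6 := by ring
    rw [e3] at hs
    have h3s : 0 < Real.sin (3 * s) := Real.sin_pos_of_pos_of_lt_pi (by linarith) (by linarith)
    have key := pside hb (m := 2) le_rfl (α := 0) (Or.inl ⟨rfl, by norm_num⟩) (by norm_num)
      (θ := Real.pi / 3) (by push_cast; linarith) (by positivity) (by push_cast; linarith)
      (by push_cast; norm_num; exact h3s)
      (by
        push_cast
        have : ((2 : ℝ) + 1) * (Real.pi / 3) = Real.pi := by ring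
        rw [this, Real.sin_pi]
        simp)
    push_cast at key
    rw [Real.cos_pi_div_three] at key
    norm_num at key
    have hcs : Real.cos (Real.pi / 3) < Real.cos s :=
      Real.cos_lt_cos_of_nonneg_of_le_pi hs0.le (by linarith) (by linarith)
    rw [Real.cos_pi_div_three] at hcs
    have h1 : Real.sin (3 * s - δ) ≤ 1 := Real.sin_le_one _
    have h2 : 2 * (Real.cos s + 1 / 2) * ρ * Real.sin (3 * s - δ) ≤ 2 * (Real.cos s + 1 / 2) * ρ := by
      have : 0 ≤ 2 * (Real.cos s + 1 / 2) * ρ := by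
        have : 0 < Real.cos s := by linarith
        positivity
      nlinarith
    have h3 : 3 * (2 * (Real.cos s + 1 / 2) * ρ) < 2 * Real.cos s + 1 := by
      have : (2 * Real.cos s + 1) * (ρ * 3) < (2 * Real.cos s + 1) * 1 :=
        mul_lt_mul_of_pos_left hr (by linarith)
      linarith
    have h4 : Real.sin (3 * s) = Real.sin s * (2 * Real.cos s - 1) * (2 * Real.cos s + 1) := by
      rw [Real.sin_three_mul]
      have := Real.sin_sq_add_cos_sq s
      linear_combination (-4 * Real.sin s) * this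
    have h5 : 3 * (Real.sin s * (2 * Real.cos s - 1)) < 1 := by
      have h6 : 3 * (Real.sin s * (2 * Real.cos s - 1)) * (2 * Real.cos s + 1) <
          1 * (2 * Real.cos s + 1) := by linarith
      exact lt_of_mul_lt_mul_right h6 (by linarith)
    have h7 : Real.sin (2 * s) = 2 * Real.sin s * Real.cos s := Real.sin_two_mul s
    have h8 : Real.sqrt 3 / 2 ≤ Real.sin (2 * s) := by
      rw [← Real.sin_pi_div_three]
      apply Real.sin_le_sin_of_le_of_le_pi_div_two (by linarith) (by linarith) (by linarith)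
    have h9 : (1732 / 1000 : ℝ) ≤ Real.sqrt 3 := Real.le_sqrt_of_sq_le (by norm_num)
    have h9' : Real.sqrt 3 ≤ (17321 / 10000 : ℝ) := by
      rw [Real.sqrt_le_left (by norm_num)]; norm_num
    have h10 : Real.sin s ≤ 5317 / 10000 := by
      have e4 : s = Real.pi / 6 + (s - Real.pi / 6) := by ring
      rw [e4, Real.sin_add, Real.sin_pi_div_six, Real.cos_pi_div_six]
      have h11 : Real.cos (s - Real.pi / 6) ≤ 1 := Real.cos_le_one _
      have h12 : Real.sin (s - Real.pi / 6) ≤ s - Real.pi / 6 := Real.sin_le (by linarith)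
      have h13 : s - Real.pi / 6 ≤ 365 / 10000 := by linarith
      have h14 : Real.sqrt 3 / 2 * Real.sin (s - Real.pi / 6) ≤ 86605 / 100000 * (365 / 10000) := by
        have h15 : 0 ≤ Real.sin (s - Real.pi / 6) :=
          Real.sin_nonneg_of_nonneg_of_le_pi (by linarith) (by linarith)
        apply mul_le_mul (by linarith) (by linarith) h15 (by norm_num)
      linarith
    linarith
  have hsc := Real.sin_sq_add_cos_sq δ
  have hσ : 0 < Real.sin δ := Real.sin_pos_of_pos_of_lt_pi hb.d_pos (by linarith [Real.pi_pos, hb.d_le])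
  have hc0 : 0 ≤ Real.cos δ := Real.cos_nonneg_of_mem_Icc ⟨by linarith [Real.pi_pos, hb.d_pos], hb.d_le⟩
  have hbm : 2 - p.coeff 2 ≤ 3 + 2 * (1243 / 10000) := by linarith
  obtain ⟨h1, h2⟩ := start hG hb.rho_pos hr (by linarith) (m0 := 1243 / 10000) (by norm_num)
    (by norm_num) hbm hb.d_pos hb.d_le hB
  have h2' : 577 / 1000 * Real.sin δ - (1 - Real.cos δ) < 8287 / 100000 := by
    refine lt_of_lt_of_le h2 ?_
    norm_num
  have h3 := sin_iter hsc hc0 hσ h2' h1 (e := 3365 / 10000) (B := 3447 / 10000) (by norm_num)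
    (by norm_num) (by norm_num) (by norm_num)
  have h4 := sin_iter hsc hc0 hσ h2' h3.le (e := 1833 / 10000) (B := 2106 / 10000) (by norm_num)
    (by norm_num) (by norm_num) (by norm_num)
  have h5 := sin_iter hsc hc0 hσ h2' h4.le (e := 1077 / 10000) (B := 1766 / 10000) (by norm_num)
    (by norm_num) (by norm_num) (by norm_num)
  have h6 := sin_iter hsc hc0 hσ h2' h5.le (e := 897 / 10000) (B := 1701 / 10000) (by norm_num)
    (by norm_num) (by norm_num) (by norm_num)
  have h7 := sin_iter hsc hc0 hσ h2' h6.le (e := 863 / 10000) (B := 169 / 1000) (by norm_num)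
    (by norm_num) (by norm_num) (by norm_num)
  have h8 := one_sub_cos_le hsc hc0 hσ h7.le (E := 1449 / 100000) (by norm_num) (by norm_num)
  have h9 : (1516 : ℝ) / 10000 ≤ 1 - Real.cos s := by
    have h7 : Real.cos s ≤ Real.cos (56 / 100) := by
      apply Real.cos_le_cos_of_nonneg_of_le_pi (by norm_num) hb.s_lt.le (by linarith)
    have h8 := cos_le_poly (x := 56 / 100) (by norm_num) (by norm_num)
    norm_num at h8
    linarith
  exact fin hG hb.rho_pos hr (by linarith) hbm hb.d_pos hb.d_le h8 (by norm_num)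
    (a := 1516 / 10000) (by norm_num) (by norm_num) h9 (κ := 1692 / 10000) (by norm_num)
    (by norm_num)

end

end Pool.Agent.Helper809.Koe
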