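import Mathlib
import Pool.Agent.Helper809.Koe.PSide
import Pool.Agent.Helper202.Geom

set_option autoImplicit false

open Polynomial Finset

namespace Pool.Agent.Helper809.Koe

open Pool.Agent.Helper766 Pool.Agent.Helper766.G Pool.Agent.Results.MP_6cc408_an.RealAxisSharp

lemma vn_axis {N : ℕ} (hN : 1 ≤ N) {p : ℝ[X]} (hp : InClass N p) :
    VN N ≤ -(p.eval (-1)) ∧ VN N ≤ p.eval 1 := by
  have key : ∀ q : ℝ[X], InClass N q → VN N ≤ -(q.eval (-1)) := by
    intro q hq
    apply neg_eval_neg_one_ge q hN hq.1.le hq.2.1 hq.2.2.1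
    intro z hz hzi
    exact im_circle_nonneg q (deriv_zero hq.2.2.1) hq.2.2.2 hz hzi
  have h1 := key p hp
  have h2 := key _ (class_reflect hp)
  simp only [eval_neg, eval_comp, eval_X, neg_neg] at h2
  exact ⟨h1, h2⟩

lemma aeval_three {p : ℝ[X]} (hd : p.natDegree ≤ 3) (h0 : p.coeff 0 = 0) (h1 : p.coeff 1 = 1)
    (z : ℂ) : aeval z p = z + (p.coeff 2 : ℂ) * z ^ 2 + (p.coeff 3 : ℂ) * z ^ 3 := by
  rw [aeval_eq_sum_range' (n := 4) (by omega)]
  simp [sum_range_succ, h0, h1]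

lemma eval_three {p : ℝ[X]} (hd : p.natDegree ≤ 3) (h0 : p.coeff 0 = 0) (h1 : p.coeff 1 = 1)
    (x : ℝ) : p.eval x = x + p.coeff 2 * x ^ 2 + p.coeff 3 * x ^ 3 := by
  rw [eval_eq_sum_range' (n := 4) (by omega)]
  simp [sum_range_succ, h0, h1]

lemma norm_three {p : ℝ[X]} (hd : p.natDegree ≤ 3) (h0 : p.coeff 0 = 0) (h1 : p.coeff 1 = 1)
    {z : ℂ} (hz : ‖z‖ = 1) : ‖aeval z p‖ ^ 2 = p.coeff 2 ^ 2 + (1 - p.coeff 3) ^ 2 +
      2 * p.coeff 2 * (1 + p.coeff 3) * z.re + 4 * p.coeff 3 * z.re ^ 2 := by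
  have h2 : aeval z p = z * (1 + (p.coeff 2 : ℂ) * z + (p.coeff 3 : ℂ) * z ^ 2) := by
    rw [aeval_three hd h0 h1]; ring
  rw [h2, norm_mul, hz, one_mul, ← Complex.normSq_eq_norm_sq, Complex.normSq_apply]
  have hz2 := circle_conj hz
  set b := p.coeff 2
  set c := p.coeff 3
  have e1 : (1 + (b : ℂ) * z + (c : ℂ) * z ^ 2).re = 1 + b * z.re + c * (z.re * z.re - z.im * z.im) := by
    simp [sq]
  have e2 : (1 + (b : ℂ) * z + (c : ℂ) * z ^ 2).im = b * z.im + c * (z.re * z.im + z.im * z.re) := by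
    simp [sq]
  rw [e1, e2]
  linear_combination (b ^ 2 + 2 * b * c * z.re + c ^ 2 * (z.re * z.re + z.im * z.im + 1) - 2 * c) * hz2

/-- derivative of a polynomial in the class does not vanish in the disc -/
lemma deriv_ne {N : ℕ} {p : ℝ[X]} (hp : InClass N p) {z : ℂ} (hz : ‖z‖ < 1) :
    aeval z (derivative p) ≠ 0 := by
  have h := Pool.Agent.Helper202.Geom.deriv_ne_zero_of_injOn (f := fun z : ℂ => aeval z p)
    Metric.isOpen_ball (p.differentiable_aeval.differentiableOn) hp.2.2.2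
    (z₀ := z) (by simpa using hz)
  rwa [Polynomial.deriv_aeval] at h

/-- a quadratic without zeros in the disc -/
lemma quad_bound {a b : ℝ} (h : ∀ z : ℂ, ‖z‖ < 1 → 1 + (b : ℂ) * z + (a : ℂ) * z ^ 2 ≠ 0) :
    |a| ≤ 1 := by
  by_contra hcon
  push Not at hcon
  have ha : (a : ℂ) ≠ 0 := by
    intro h0
    have : a = 0 := by exact_mod_cast h0
    rw [this] at hcon
    simp at hcon
    linarith
  obtain ⟨z1, hz1⟩ := exists_quadratic_eq_zero (K := ℂ) (a := (a : ℂ)) (b := (b : ℂ)) (c := 1) ha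
    (IsAlgClosed.exists_eq_mul_self _)
  set z2 : ℂ := -(b : ℂ) / a - z1 with hz2
  have hz2e : (a : ℂ) * (z2 * z2) + b * z2 + 1 = 0 := by
    rw [hz2]; field_simp
    linear_combination (a : ℂ) * hz1
  have hprod : (a : ℂ) * (z1 * z2) = 1 := by
    rw [hz2]; field_simp
    linear_combination -hz1
  have hn : |a| * (‖z1‖ * ‖z2‖) = 1 := by
    have := congrArg norm hprod
    rw [norm_mul, norm_mul, Complex.norm_real, Real.norm_eq_abs, norm_one] at this
    exact this
  have h1 : 1 ≤ ‖z1‖ := by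
    by_contra hlt
    push Not at hlt
    exact h z1 hlt (by linear_combination hz1)
  have h2 : 1 ≤ ‖z2‖ := by
    by_contra hlt
    push Not at hlt
    exact h z2 hlt (by linear_combination hz2e)
  nlinarith [mul_le_mul h1 h2 (by norm_num) (by linarith)]

lemma coeff_three_le {p : ℝ[X]} (hp : InClass 3 p) : |p.coeff 3| ≤ 1 / 3 := by
  have h := quad_bound (a := 3 * p.coeff 3) (b := 2 * p.coeff 2) (by
    intro z hz
    have h1 := deriv_ne hp hz
    have h2 : aeval z (derivative p) = 1 + (((2 * p.coeff 2 : ℝ)) : ℂ) * z +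
        ((3 * p.coeff 3 : ℝ) : ℂ) * z ^ 2 := by
      have hd : (derivative p).natDegree < 3 := by
        have := natDegree_derivative_le p
        have := hp.1
        omega
      rw [aeval_eq_sum_range' hd]
      simp [sum_range_succ, coeff_derivative, hp.2.2.1]
      ring
    rwa [h2] at h1)
  rw [abs_mul] at h
  norm_num at h
  linarith

lemma F_lower {b c x V : ℝ} (hV0 : 0 < V) (hV : V < 38197 / 100000) (hx1 : -1 ≤ x) (hx2 : x ≤ 1)
    (hc : |c| ≤ 1 / 3) (hq : ∀ y : ℝ, -1 ≤ y → y ≤ 1 → 0 ≤ 1 - c + 2 * b * y + 4 * c * y ^ 2)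
    (h1 : V ≤ 1 - b + c) (h2 : V ≤ 1 + b + c) :
    V ^ 2 ≤ b ^ 2 + (1 - c) ^ 2 + 2 * b * (1 + c) * x + 4 * c * x ^ 2 := by
  obtain ⟨hc1, hc2⟩ := abs_le.mp hc
  have e1 : V ^ 2 ≤ (1 - b + c) ^ 2 := pow_le_pow_left₀ hV0.le h1 2
  have e2 : V ^ 2 ≤ (1 + b + c) ^ 2 := pow_le_pow_left₀ hV0.le h2 2
  rcases le_or_gt c 0 with hc0 | hc0
  · -- concave
    have e3 : b ^ 2 + (1 - c) ^ 2 + 2 * b * (1 + c) * x + 4 * c * x ^ 2 =
        (1 - x) / 2 * (1 - b + c) ^ 2 + (1 + x) / 2 * (1 + b + c) ^ 2 - 4 * c * (1 - x ^ 2) := by ring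
    rw [e3]
    have e4 : 0 ≤ -4 * c * (1 - x ^ 2) := by
      apply mul_nonneg (by linarith)
      nlinarith
    have e5 : (1 - x) / 2 * V ^ 2 ≤ (1 - x) / 2 * (1 - b + c) ^ 2 :=
      mul_le_mul_of_nonneg_left e1 (by linarith)
    have e6 : (1 + x) / 2 * V ^ 2 ≤ (1 + x) / 2 * (1 + b + c) ^ 2 :=
      mul_le_mul_of_nonneg_left e2 (by linarith)
    linarith
  · -- convex
    rcases le_or_gt (4 * c) (b * (1 + c)) with h3 | h3
    · -- min at -1
      have e3 : b ^ 2 + (1 - c) ^ 2 + 2 * b * (1 + c) * x + 4 * c * x ^ 2 =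
        (1 - b + c) ^ 2 + (x + 1) * (2 * (b * (1 + c) - 4 * c) + 4 * c * (x + 1)) := by ring
      rw [e3]
      have : 0 ≤ (x + 1) * (2 * (b * (1 + c) - 4 * c) + 4 * c * (x + 1)) := by
        apply mul_nonneg (by linarith)
        have : 0 ≤ 4 * c * (x + 1) := mul_nonneg (by linarith) (by linarith)
        linarith
      linarith
    · rcases le_or_gt (b * (1 + c)) (-(4 * c)) with h4 | h4
      · have e3 : b ^ 2 + (1 - c) ^ 2 + 2 * b * (1 + c) * x + 4 * c * x ^ 2 =
          (1 + b + c) ^ 2 + (1 - x) * (2 * (-(b * (1 + c)) - 4 * c) + 4 * c * (1 - x)) := by ring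
        rw [e3]
        have : 0 ≤ (1 - x) * (2 * (-(b * (1 + c)) - 4 * c) + 4 * c * (1 - x)) := by
          apply mul_nonneg (by linarith)
          have : 0 ≤ 4 * c * (1 - x) := mul_nonneg (by linarith) (by linarith)
          linarith
        linarith
      · -- interior vertex
        have hb2 : (b * (1 + c)) ^ 2 ≤ (4 * c) ^ 2 := by
          apply sq_le_sq'
          · linarith
          · linarith
        -- F ≥ (1-c)^2 (1 - b²/(4c)); times 4c
        have e3 : (1 - c) ^ 2 * (4 * c - b ^ 2) ≤ 4 * c * (b ^ 2 + (1 - c) ^ 2 +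
            2 * b * (1 + c) * x + 4 * c * x ^ 2) := by
          nlinarith [sq_nonneg (4 * c * x + b * (1 + c))]
        suffices h : 4 * c * V ^ 2 ≤ (1 - c) ^ 2 * (4 * c - b ^ 2) by
          have h5 : 4 * c * V ^ 2 ≤ 4 * c * (b ^ 2 + (1 - c) ^ 2 +
            2 * b * (1 + c) * x + 4 * c * x ^ 2) := h.trans e3
          exact le_of_mul_le_mul_left h5 (by linarith)
        have hV2 : V ^ 2 ≤ 1459011 / 10000000 := by nlinarith
        rcases le_or_gt c (2955 / 10000) with h5 | h5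
        · -- b² ≤ 16c²/(1+c)²
          have h6 : b ^ 2 * (1 + c) ^ 2 ≤ 16 * c ^ 2 := by
            calc b ^ 2 * (1 + c) ^ 2 = (b * (1 + c)) ^ 2 := by ring
              _ ≤ (4 * c) ^ 2 := hb2
              _ = _ := by ring
          -- (4c - b²)(1+c)² ≥ 4c (1+c)² - 16 c² = 4c (1-c)²
          have h7 : 4 * c * (1 - c) ^ 2 ≤ (4 * c - b ^ 2) * (1 + c) ^ 2 := by linarith
          have h8 : V * (1 + c) ≤ (1 - c) ^ 2 := by nlinarith
          have h9 : (V * (1 + c)) ^ 2 ≤ ((1 - c) ^ 2) ^ 2 :=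
            pow_le_pow_left₀ (by positivity) h8 2
          have h10 : 4 * c * V ^ 2 * (1 + c) ^ 2 ≤ (1 - c) ^ 2 * (4 * c - b ^ 2) * (1 + c) ^ 2 := by
            calc 4 * c * V ^ 2 * (1 + c) ^ 2 = 4 * c * (V * (1 + c)) ^ 2 := by ring
              _ ≤ 4 * c * ((1 - c) ^ 2) ^ 2 := by gcongr
              _ = (1 - c) ^ 2 * (4 * c * (1 - c) ^ 2) := by ring
              _ ≤ (1 - c) ^ 2 * ((4 * c - b ^ 2) * (1 + c) ^ 2) := by gcongr
              _ = _ := by ring
          exact le_of_mul_le_mul_right h10 (by positivity)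
        · -- discriminant
          have hv : |b / (4 * c)| ≤ 1 := by
            rw [abs_div, abs_of_pos (by linarith : 0 < 4 * c), div_le_one (by linarith), abs_le]
            constructor
            · nlinarith
            · nlinarith
          obtain ⟨hv1, hv2⟩ := abs_le.mp hv
          have h6 := hq (-(b / (4 * c))) (by linarith) (by linarith)
          have h7 : 1 - c + 2 * b * -(b / (4 * c)) + 4 * c * (-(b / (4 * c))) ^ 2 =
              1 - c - b ^ 2 / (4 * c) := by field_simp; ring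
          rw [h7] at h6
          have h8 : b ^ 2 ≤ 4 * c * (1 - c) := by
            have : b ^ 2 / (4 * c) ≤ 1 - c := by linarith
            rw [div_le_iff₀ (by linarith)] at this
            linarith
          have h9 : 4 * c * c ≤ 4 * c - b ^ 2 := by linarith
          have h10 : V ^ 2 ≤ (1 - c) ^ 2 * c := by
            obtain ⟨d, rfl⟩ : ∃ d, c = 2955 / 10000 + d := ⟨c - 2955 / 10000, by ring⟩
            have hd0 : 0 < d := by linarith
            have hd1 : d ≤ 38 / 1000 := by linarith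
            have e : (1 - (2955 / 10000 + d)) ^ 2 * (2955 / 10000 + d) =
                (7045 / 10000) ^ 2 * (2955 / 10000) + d * (8 / 100 - 11136 / 10000 * d) +
                  d * (d ^ 2 + (7045 / 10000) ^ 2 - 2 * (7045 / 10000) * (2955 / 10000) -
                    8 / 100 + (11136 / 10000 - 2 * (7045 / 10000) + 2955 / 10000) * d) := by ring
            have e1 : 0 ≤ d * (8 / 100 - 11136 / 10000 * d) := mul_nonneg hd0.le (by linarith)
            have e2 : d * (d ^ 2 + (7045 / 10000) ^ 2 - 2 * (7045 / 10000) * (2955 / 10000) -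
                    8 / 100 + (11136 / 10000 - 2 * (7045 / 10000) + 2955 / 10000) * d) ≥
                d * (-(1 / 1000)) := by
              apply mul_le_mul_of_nonneg_left _ hd0.le
              norm_num
              nlinarith [sq_nonneg d]
            rw [e]
            norm_num at e1 e2 ⊢
            linarith
          calc 4 * c * V ^ 2 ≤ 4 * c * ((1 - c) ^ 2 * c) := by gcongr
            _ = (1 - c) ^ 2 * (4 * c * c) := by ring
            _ ≤ (1 - c) ^ 2 * (4 * c - b ^ 2) := by gcongr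

lemma vn3 : VN 3 < 38197 / 100000 := by
  unfold VN
  have h5 : Real.pi / ((3 : ℕ) + 2) = Real.pi / 5 := by push_cast; norm_num
  rw [h5, Real.cos_pi_div_five]
  have h6 : (2236 : ℝ) / 1000 < Real.sqrt 5 := Real.lt_sqrt_of_sq_lt (by norm_num)
  have h7 : Real.sqrt 5 ^ 2 = 5 := Real.sq_sqrt (by norm_num)
  rw [div_lt_iff₀ (by positivity)]
  nlinarith

theorem case3 {p : ℝ[X]} {ρ δ s : ℝ} (hb : Bad 3 p ρ δ s) : False := by
  have hp := hb.cls
  have hV0 : 0 < VN 3 := VN_pos (by norm_num)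
  have hz : ‖Complex.exp ((s : ℂ) * Complex.I)‖ = 1 := Complex.norm_exp_ofReal_mul_I s
  have h1 := norm_three hp.1.le hp.2.1 hp.2.2.1 hz
  obtain ⟨ha, hb'⟩ := vn_axis (by norm_num) hp
  rw [eval_three hp.1.le hp.2.1 hp.2.2.1] at ha hb'
  have hx : |(Complex.exp ((s : ℂ) * Complex.I)).re| ≤ 1 := by
    rw [← hz]; exact Complex.abs_re_le_norm _
  obtain ⟨hx1, hx2⟩ := abs_le.mp hx
  have h2 := F_lower (b := p.coeff 2) (c := p.coeff 3) hV0 vn3 hx1 hx2 (coeff_three_le hp) (by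
    intro y hy1 hy2
    have := qpoly_nonneg p (bad_deg hb) hb.cls.2.1 (bad_circle hb) (x := y) ⟨hy1, hy2⟩
    unfold qpoly at this
    simp only [sum_range_succ, sum_range_zero, Nat.cast_zero, Nat.cast_one, zero_add,
      Chebyshev.U_zero, Chebyshev.U_one, eval_add, eval_mul, eval_C, eval_one, eval_ofNat, eval_X,
      hp.2.2.1, eval_zero] at this
    have e2 : ((2 : ℕ) : ℤ) = 2 := rfl
    rw [e2, Chebyshev.U_two] at this
    simp at this
    linarith) (by linarith) (by linarith)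
  rw [← h1, hb.hit, norm_mul, Complex.norm_real, Complex.norm_exp_ofReal_mul_I, mul_one,
    Real.norm_eq_abs, abs_of_pos hb.rho_pos] at h2
  have h3 := hb.rho_lt
  have h4 := hb.rho_pos
  nlinarith

theorem case2 {p : ℝ[X]} {ρ δ s : ℝ} (hb : Bad 2 p ρ δ s) : False := by
  have hp := hb.cls
  have hV0 : 0 < VN 2 := VN_pos (by norm_num)
  have hz : ‖Complex.exp ((s : ℂ) * Complex.I)‖ = 1 := Complex.norm_exp_ofReal_mul_I s
  have hd : p.natDegree ≤ 3 := by rw [hp.1]; norm_num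
  have h1 := norm_three hd hp.2.1 hp.2.2.1 hz
  obtain ⟨ha, hb'⟩ := vn_axis (by norm_num) hp
  rw [eval_three hd hp.2.1 hp.2.2.1] at ha hb'
  have hc3 : p.coeff 3 = 0 := coeff_eq_zero_of_natDegree_lt (by rw [hp.1]; norm_num)
  have hx : |(Complex.exp ((s : ℂ) * Complex.I)).re| ≤ 1 := by
    rw [← hz]; exact Complex.abs_re_le_norm _
  obtain ⟨hx1, hx2⟩ := abs_le.mp hx
  rw [hb.hit, norm_mul, Complex.norm_real, Complex.norm_exp_ofReal_mul_I, mul_one,
    Real.norm_eq_abs, abs_of_pos hb.rho_pos] at h1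
  rw [hc3] at h1 ha hb'
  set b := p.coeff 2
  set x := (Complex.exp ((s : ℂ) * Complex.I)).re
  have e1 : VN 2 ^ 2 ≤ (1 - b) ^ 2 := pow_le_pow_left₀ hV0.le (by linarith) 2
  have e2 : VN 2 ^ 2 ≤ (1 + b) ^ 2 := pow_le_pow_left₀ hV0.le (by linarith) 2
  have h3 := hb.rho_lt
  have h4 := hb.rho_pos
  have e5 : (1 - x) / 2 * VN 2 ^ 2 ≤ (1 - x) / 2 * (1 - b) ^ 2 :=
    mul_le_mul_of_nonneg_left e1 (by linarith)
  have e6 : (1 + x) / 2 * VN 2 ^ 2 ≤ (1 + x) / 2 * (1 + b) ^ 2 :=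
    mul_le_mul_of_nonneg_left e2 (by linarith)
  have : ρ ^ 2 < VN 2 ^ 2 := pow_lt_pow_left₀ h3 h4.le (by norm_num)
  nlinarith

theorem case1 {p : ℝ[X]} {ρ δ s : ℝ} (hb : Bad 1 p ρ δ s) : False := by
  have hp := hb.cls
  have hV0 : 0 < VN 1 := VN_pos (by norm_num)
  have hz : ‖Complex.exp ((s : ℂ) * Complex.I)‖ = 1 := Complex.norm_exp_ofReal_mul_I s
  have hd : p.natDegree ≤ 3 := by rw [hp.1]; norm_num
  have h1 := norm_three hd hp.2.1 hp.2.2.1 hz
  obtain ⟨ha, hb'⟩ := vn_axis (by norm_num) hp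
  rw [eval_three hd hp.2.1 hp.2.2.1] at ha hb'
  have hc3 : p.coeff 3 = 0 := coeff_eq_zero_of_natDegree_lt (by rw [hp.1]; norm_num)
  have hc2 : p.coeff 2 = 0 := coeff_eq_zero_of_natDegree_lt (by rw [hp.1]; norm_num)
  rw [hb.hit, norm_mul, Complex.norm_real, Complex.norm_exp_ofReal_mul_I, mul_one,
    Real.norm_eq_abs, abs_of_pos hb.rho_pos] at h1
  rw [hc3, hc2] at h1 ha hb'
  have h3 := hb.rho_lt
  have h4 := hb.rho_pos
  nlinarith

/-- degrees `≤ 3` -/
theorem case_small {N : ℕ} (hN : 1 ≤ N) (hN3 : N ≤ 3) {p : ℝ[X]} {ρ δ s : ℝ}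
    (hb : Bad N p ρ δ s) : False := by
  interval_cases N
  · exact case1 hb
  · exact case2 hb
  · exact case3 hb

end Pool.Agent.Helper809.Koe
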