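import Mathlib
import Pool.Agent.Helper809.Koe.Five
import Pool.Agent.Helper809.Koe.Small
import Pool.Agent.Helper766.G.Cor
import Pool.Agent.Helper499.BadBieb

set_option autoImplicit false

open Polynomial Finset

namespace Pool.Agent.Helper809.Koe

open Pool.Agent.Helper766 Pool.Agent.Helper766.G Pool.Agent.Results.MP_6cc408_an.RealAxisSharp

lemma gside_bad {N : ℕ} {p : ℝ[X]} {ρ δ s : ℝ} (hb : Bad N p ρ δ s) : GSide (p.coeff 2) ρ δ s := by
  intro B t1 ta hB hB2 h1 h2 h3 h4
  have h := gside hb hB hB2 h1 h2 h3 h4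
  unfold Pool.Agent.Helper766.G.Wf at h
  unfold Wf
  exact h

lemma bside_bad {N : ℕ} {p : ℝ[X]} {ρ δ s : ℝ} (hb : Bad N p ρ δ s) : BSide (p.coeff 2) ρ δ :=
  Pool.Agent.Helper499.bad_bieb hb

/-- no counterexample, except possibly for `N = 5` -/
theorem no_bad {N : ℕ} (hN : 1 ≤ N)
    (h5 : ∀ (p : ℝ[X]) (ρ δ s : ℝ), Bad 5 p ρ δ s → 3 / 10 ≤ s → 11 / 25 < s)
    {p : ℝ[X]} {ρ δ s : ℝ} (hb : Bad N p ρ δ s) : False := by
  have hG := gside_bad hb
  have hB := bside_bad hb
  rcases Nat.lt_or_ge N 4 with h | h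
  · exact case_small hN (by omega) hb
  · rcases Nat.lt_or_ge N 6 with h6 | h6
    · interval_cases N
      · exact case4 hb hG hB
      · exact n5_high hb hG hB (h5 p ρ δ s hb (n5_low hb).le)
    · exact case_ge6 h6 hb hG hB

/-- from the absence of counterexamples to the covering theorem -/
theorem covers {N : ℕ} (hN : 1 ≤ N) (hno : ∀ (p : ℝ[X]) (ρ δ s : ℝ), ¬ Bad N p ρ δ s)
    {p : ℝ[X]} (hp : InClass N p) : Metric.ball (0 : ℂ) (VN N) ⊆ image p := by
  have h1 : VN N ≤ koebeRadius N := by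
    by_contra hcon
    push Not at hcon
    obtain ⟨p, ρ, δ, s, hb⟩ := exists_bad hN hcon
    exact hno p ρ δ s hb
  intro w hw
  rw [mem_ball_zero_iff] at hw
  have h2 : ‖w‖ < koebeRadius N := hw.trans_le h1
  unfold koebeRadius at h2
  obtain ⟨r, hr, hwr⟩ := exists_lt_of_lt_csSup (by
    refine ⟨0, ?_⟩
    intro q _
    simp) h2
  exact hr p hp (by rw [mem_ball_zero_iff]; exact hwr)

lemma isOpen_image {N : ℕ} {p : ℝ[X]} (hp : InClass N p) : IsOpen (image p) := by
  have han : AnalyticOnNhd ℂ (fun z : ℂ => aeval z p) (Metric.ball (0 : ℂ) 1) :=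
    (p.differentiable_aeval.differentiableOn).analyticOnNhd Metric.isOpen_ball
  rcases han.is_constant_or_isOpen (convex_ball (0 : ℂ) 1).isPreconnected with ⟨w, hw⟩ | h
  · exfalso
    have h0 : (0 : ℂ) ∈ Metric.ball (0 : ℂ) 1 := by simp
    have h1 : (1 / 2 : ℂ) ∈ Metric.ball (0 : ℂ) 1 := by
      rw [mem_ball_zero_iff]; norm_num
    have := hp.2.2.2 h0 h1 (by simp only; rw [hw 0 h0, hw _ h1])
    norm_num at this
  · exact h _ subset_rfl Metric.isOpen_ball

lemma image_nonempty (p : ℝ[X]) : (image p).Nonempty := ⟨_, 0, by simp, rfl⟩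

lemma image_bounded (p : ℝ[X]) : Bornology.IsBounded (image p) := by
  have h1 : IsCompact ((fun z : ℂ => aeval z p) '' Metric.closedBall (0 : ℂ) 1) :=
    (isCompact_closedBall 0 1).image p.continuous_aeval
  exact h1.isBounded.subset (Set.image_mono Metric.ball_subset_closedBall)

lemma frontier_nonempty' (p : ℝ[X]) : (frontier (image p)).Nonempty := by
  by_contra hcon
  rw [Set.not_nonempty_iff_eq_empty, ← isClopen_iff_frontier_eq_empty] at hcon
  rcases isClopen_iff.mp hcon with h | h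
  · exact (image_nonempty p).ne_empty h
  · have := image_bounded p
    rw [h] at this
    exact NormedSpace.unbounded_univ ℂ ℂ this

lemma le_infDist_of_ball {N : ℕ} {p : ℝ[X]} (hp : InClass N p) {r : ℝ}
    (h : Metric.ball (0 : ℂ) r ⊆ image p) : r ≤ Metric.infDist (0 : ℂ) (frontier (image p)) := by
  rw [Metric.le_infDist (frontier_nonempty' p)]
  intro w hw
  have hw2 : w ∉ image p := by
    rw [(isOpen_image hp).frontier_eq] at hw
    exact hw.2
  by_contra hcon
  push Not at hcon
  apply hw2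
  apply h
  rw [Metric.mem_ball, dist_comm]
  exact hcon

lemma infDist_FN {N : ℕ} (hN : 1 ≤ N) :
    Metric.infDist (0 : ℂ) (frontier (image (FN N))) ≤ VN N := by
  have hF := FN_inClass hN
  have hnot := eval_neg_one_not_mem hF
  have hV := VN_pos hN
  have hmem : (((FN N).eval (-1) : ℝ) : ℂ) ∈ frontier (image (FN N)) := by
    rw [(isOpen_image hF).frontier_eq]
    refine ⟨?_, hnot⟩
    have h1 : (fun z : ℂ => aeval z (FN N)) '' closure (Metric.ball (0 : ℂ) 1) ⊆
        closure (image (FN N)) :=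
      image_closure_subset_closure_image ((FN N).continuous_aeval)
    apply h1
    refine ⟨-1, ?_, ?_⟩
    · rw [closure_ball (0 : ℂ) one_ne_zero, mem_closedBall_zero_iff]
      simp
    · simp only
      have := aeval_ofReal' (FN N) (-1)
      simpa using this
  refine (Metric.infDist_le_dist_of_mem hmem).trans ?_
  rw [FN_eval_neg_one hN, dist_zero_left, Complex.norm_real, Real.norm_eq_abs, abs_neg]
  exact (abs_of_pos hV).le

end Pool.Agent.Helper809.Koe
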